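import Mathlib

set_option autoImplicit false

open Filter Topology

namespace PT

/-- a function bounded along an ultrafilter has a limit. -/
theorem exists_lim {ι : Type*} (U : Ultrafilter ι) (u : ι → ℝ) (C : ℝ)
    (h : ∀ᶠ i in (U : Filter ι), |u i| ≤ C) :
    ∃ l : ℝ, |l| ≤ C ∧ Tendsto u (U : Filter ι) (𝓝 l) := by
  have hK : IsCompact (Set.Icc (-C) C) := isCompact_Icc
  have h1 : ((U.map u : Ultrafilter ℝ) : Filter ℝ) ≤ 𝓟 (Set.Icc (-C) C) := by
    rw [le_principal_iff]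
    change u ⁻¹' (Set.Icc (-C) C) ∈ (U : Filter ι)
    filter_upwards [h] with i hi
    exact abs_le.mp hi
  obtain ⟨l, hl, hle⟩ := hK.ultrafilter_le_nhds (U.map u) h1
  exact ⟨l, abs_le.mpr hl, hle⟩

/-- asymptotically additive and bounded functions converge along an ultrafilter to a continuous
linear functional. -/
theorem exists_clm {ι : Type*} (U : Ultrafilter ι) {X : Type*} [NormedAddCommGroup X]
    [NormedSpace ℝ X] (g : ι → X → ℝ) (C : ℝ) (hC : 0 ≤ C)
    (hb : ∀ x, ∀ ε > (0 : ℝ), ∀ᶠ i in (U : Filter ι), |g i x| ≤ C * ‖x‖ + ε)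
    (ha : ∀ x y, Tendsto (fun i => g i x + g i y - g i (x + y)) (U : Filter ι) (𝓝 0)) :
    ∃ L : X →L[ℝ] ℝ, ‖L‖ ≤ C ∧ ∀ x, Tendsto (fun i => g i x) (U : Filter ι) (𝓝 (L x)) := by
  have h1 : ∀ x, ∃ l : ℝ, Tendsto (fun i => g i x) (U : Filter ι) (𝓝 l) := by
    intro x
    obtain ⟨l, -, hl⟩ := exists_lim U (fun i => g i x) _ (hb x 1 one_pos)
    exact ⟨l, hl⟩
  choose l hl using h1
  have hadd : ∀ x y, l (x + y) = l x + l y := by
    intro x y
    have h2 := ((hl x).add (hl y)).sub (hl (x + y))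
    have h3 := tendsto_nhds_unique h2 (ha x y)
    linarith
  have hbd : ∀ x, |l x| ≤ C * ‖x‖ := by
    intro x
    refine le_of_forall_pos_le_add fun ε hε => ?_
    exact le_of_tendsto (hl x).abs (hb x ε hε)
  let A : X →+ ℝ := AddMonoidHom.mk' l hadd
  have hA : Continuous A := AddMonoidHomClass.continuous_of_bound A C (fun x => by
    simpa [A] using hbd x)
  refine ⟨A.toRealLinearMap hA, ?_, ?_⟩
  · refine ContinuousLinearMap.opNorm_le_bound _ hC fun x => ?_
    simpa [A] using hbd x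
  · intro x
    simpa [A] using hl x

/-- finite form of Goldstine's theorem. -/
theorem helly {Y : Type*} [NormedAddCommGroup Y] [NormedSpace ℝ Y]
    (ζ : (Y →L[ℝ] ℝ) →L[ℝ] ℝ) (R : ℝ) (hR : 0 < R) (hζ : ‖ζ‖ ≤ R)
    (S : Finset (Y →L[ℝ] ℝ)) (ε : ℝ) (hε : 0 < ε) :
    ∃ y : Y, ‖y‖ ≤ R ∧ ∀ φ ∈ S, |φ y - ζ φ| < ε := by
  classical
  let L : Y →ₗ[ℝ] (S → ℝ) := LinearMap.pi fun φ => (φ.1 : Y →ₗ[ℝ] ℝ)
  have hL : ∀ y (φ : S), L y φ = φ.1 y := fun y φ => rfl
  let p : S → ℝ := fun φ => ζ φ.1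
  by_cases hp : p ∈ closure (L '' Metric.closedBall 0 R)
  · rw [Metric.mem_closure_iff] at hp
    obtain ⟨b, ⟨y, hy, rfl⟩, hd⟩ := hp ε hε
    refine ⟨y, by simpa using hy, fun φ hφ => ?_⟩
    have h1 : dist (p ⟨φ, hφ⟩) (L y ⟨φ, hφ⟩) < ε := lt_of_le_of_lt (dist_le_pi_dist p (L y) ⟨φ, hφ⟩) hd
    rw [dist_comm, Real.dist_eq] at h1
    exact h1
  · exfalso
    have hconv : Convex ℝ (closure (L '' Metric.closedBall 0 R)) :=
      ((convex_closedBall 0 R).linear_image L).closure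
    obtain ⟨a, u, hau, hup⟩ := geometric_hahn_banach_closed_point hconv isClosed_closure hp
    -- the functional a ∘ L
    let ψ : Y →L[ℝ] ℝ := ∑ φ : S, (a (Pi.single φ 1)) • φ.1
    have hψ : ∀ y, ψ y = a (L y) := by
      intro y
      have h1 : L y = ∑ φ : S, (L y φ) • (Pi.single φ (1 : ℝ) : S → ℝ) := by
        ext φ
        simp [Finset.sum_apply, Pi.single_apply]
      rw [h1, map_sum]
      simp only [ψ, FunLike.coe_sum, Finset.sum_apply, FunLike.coe_smul,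
        Pi.smul_apply, smul_eq_mul, map_smul, hL]
      refine Finset.sum_congr rfl fun φ _ => ?_
      ring
    have hζψ : ζ ψ = a p := by
      have h1 : p = ∑ φ : S, (p φ) • (Pi.single φ (1 : ℝ) : S → ℝ) := by
        ext φ
        simp [Finset.sum_apply, Pi.single_apply]
      rw [h1, map_sum]
      simp only [map_sum, map_smul, smul_eq_mul, p]
      refine Finset.sum_congr rfl fun φ _ => ?_
      ring
    have hu : ∀ y : Y, ‖y‖ ≤ R → ψ y ≤ u := by
      intro y hy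
      rw [hψ]
      exact (hau _ (subset_closure ⟨y, by simpa using hy, rfl⟩)).le
    have hu0 : 0 ≤ u := by
      have := hu 0 (by simpa using hR.le)
      simpa using this
    have hn : ‖ψ‖ ≤ u / R := by
      refine ContinuousLinearMap.opNorm_le_bound _ (div_nonneg hu0 hR.le) fun y => ?_
      have key : ∀ z : Y, ψ z ≤ u / R * ‖z‖ := by
        intro z
        by_cases hz : z = 0
        · simp [hz]
        · have hz' : 0 < ‖z‖ := norm_pos_iff.mpr hz
          have h1 := hu ((R / ‖z‖) • z) (by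
            rw [norm_smul, Real.norm_eq_abs, abs_of_pos (div_pos hR hz')]
            rw [div_mul_cancel₀ _ hz'.ne'])
          rw [map_smul, smul_eq_mul] at h1
          rw [div_mul_eq_mul_div, le_div_iff₀ hR]
          rw [div_mul_eq_mul_div, div_le_iff₀ hz'] at h1
          linarith
      rw [Real.norm_eq_abs, abs_le]
      constructor
      · have := key (-y)
        rw [map_neg, norm_neg] at this
        linarith
      · exact key y
    have h2 : ζ ψ ≤ u := by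
      calc ζ ψ ≤ ‖ζ ψ‖ := le_abs_self _
        _ ≤ ‖ζ‖ * ‖ψ‖ := ζ.le_opNorm ψ
        _ ≤ R * (u / R) := mul_le_mul hζ hn (norm_nonneg _) hR.le
        _ = u := by field_simp
    linarith

/-- Goldstine's theorem, with an ultrafilter. -/
theorem goldstine {Y : Type*} [NormedAddCommGroup Y] [NormedSpace ℝ Y]
    (ζ : (Y →L[ℝ] ℝ) →L[ℝ] ℝ) (R : ℝ) (hR : 0 < R) (hζ : ‖ζ‖ ≤ R) :
    ∃ (U : Ultrafilter (Finset (Y →L[ℝ] ℝ) × ℕ)) (y : Finset (Y →L[ℝ] ℝ) × ℕ → Y),
      (∀ i, ‖y i‖ ≤ R) ∧ ∀ φ : Y →L[ℝ] ℝ, Tendsto (fun i => φ (y i)) (U : Filter _) (𝓝 (ζ φ)) := by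
  classical
  have h := fun i : Finset (Y →L[ℝ] ℝ) × ℕ =>
    helly ζ R hR hζ i.1 (1 / ((i.2 : ℝ) + 1)) (by positivity)
  choose y hy hφ using h
  refine ⟨Ultrafilter.of atTop, y, hy, fun φ => ?_⟩
  refine Tendsto.mono_left ?_ (Ultrafilter.of_le atTop)
  rw [Metric.tendsto_nhds]
  intro ε hε
  obtain ⟨n, hn⟩ := exists_nat_one_div_lt hε
  filter_upwards [eventually_ge_atTop (({φ} : Finset (Y →L[ℝ] ℝ)), n)] with i hi
  have h1 : φ ∈ i.1 := hi.1 (by simp)
  have h2 := hφ i φ h1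
  rw [Real.dist_eq]
  have h3 : (1 : ℝ) / ((i.2 : ℝ) + 1) ≤ 1 / ((n : ℝ) + 1) := by
    apply one_div_le_one_div_of_le (by positivity)
    have : (n : ℝ) ≤ (i.2 : ℝ) := by exact_mod_cast hi.2
    linarith
  linarith

end PT
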