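import Mathlib
import Pool.Agent.Lib_helper59.PT.Ultra

set_option autoImplicit false

open Filter Topology MeasureTheory

namespace PT

/-- The transfer lemma in abstract form. -/
theorem transfer {X Y : Type*} [NormedAddCommGroup X] [NormedSpace ℝ X] [NormedAddCommGroup Y]
    [NormedSpace ℝ Y] {Ω : Type*} [MeasurableSpace Ω] (μ : Measure Ω) (f : Ω → X)
    (E : Submodule ℝ X)
    (hf0 : ∀ φ : X →L[ℝ] ℝ, (∀ e ∈ E, φ e = 0) → ∀ᵐ ω ∂μ, φ (f ω) = 0)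
    (T : E →L[ℝ] (Y →L[ℝ] ℝ)) {ι : Type*} (U : Ultrafilter ι) (V0 : Set Y) (hV0 : V0.Countable)
    (r : ι → Y → Y) (hr0 : ∀ i y, r i y ∈ V0)
    (hr1 : ∀ y, ∀ ε > (0 : ℝ), ∀ᶠ i in (U : Filter ι), ‖r i y‖ ≤ ‖y‖ + ε)
    (hr2 : ∀ y y', Tendsto (fun i => ‖r i y + r i y' - r i (y + y')‖) (U : Filter ι) (𝓝 0))
    (hr3 : ∀ y (e : E), Tendsto (fun i => T e (r i y)) (U : Filter ι) (𝓝 (T e y))) :
    ∃ F : Ω → (Y →L[ℝ] ℝ), (∀ ω, ‖F ω‖ ≤ ‖T‖ * ‖f ω‖) ∧ ∃ N : Set Ω, μ N = 0 ∧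
      ∀ ζ : (Y →L[ℝ] ℝ) →L[ℝ] ℝ, ∃ x : X →L[ℝ] ℝ, ‖x‖ ≤ ‖T‖ * ‖ζ‖ ∧ (∀ e : E, x e = ζ (T e)) ∧
        ∀ ω, ω ∉ N → ζ (F ω) = x (f ω) := by
  classical
  -- Hahn-Banach extensions
  have hHB : ∀ v : Y, ∃ g : X →L[ℝ] ℝ, (∀ e : E, g e = T e v) ∧ ‖g‖ ≤ ‖T‖ * ‖v‖ := by
    intro v
    obtain ⟨g, hg1, hg2⟩ := exists_extension_norm_eq E (T.flip v)
    refine ⟨g, fun e => hg1 e, ?_⟩
    rw [hg2]
    calc ‖T.flip v‖ ≤ ‖T.flip‖ * ‖v‖ := T.flip.le_opNorm v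
      _ = ‖T‖ * ‖v‖ := by rw [ContinuousLinearMap.opNorm_flip]
  choose hb hb1 hb2 using hHB
  have hT0 : 0 ≤ ‖T‖ := norm_nonneg T
  -- the exceptional null set
  have hae : ∀ᵐ ω ∂μ, ∀ v ∈ V0, ∀ v' ∈ V0, ∀ v'' ∈ V0,
      |hb v (f ω) + hb v' (f ω) - hb v'' (f ω)| ≤ ‖T‖ * ‖v + v' - v''‖ * ‖f ω‖ := by
    rw [ae_ball_iff hV0]
    intro v _
    rw [ae_ball_iff hV0]
    intro v' _
    rw [ae_ball_iff hV0]
    intro v'' _
    have h1 := hf0 (hb v + hb v' - hb v'' - hb (v + v' - v'')) (by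
      intro e he
      have := hb1 v ⟨e, he⟩
      have := hb1 v' ⟨e, he⟩
      have := hb1 v'' ⟨e, he⟩
      have := hb1 (v + v' - v'') ⟨e, he⟩
      simp only [_root_.sub_apply, _root_.add_apply, *, map_add, map_sub]
      ring)
    filter_upwards [h1] with ω hω
    have h2 : hb v (f ω) + hb v' (f ω) - hb v'' (f ω) = hb (v + v' - v'') (f ω) := by
      simp only [_root_.sub_apply, _root_.add_apply] at hω
      linarith
    rw [h2]
    calc |hb (v + v' - v'') (f ω)| = ‖hb (v + v' - v'') (f ω)‖ := rfl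
      _ ≤ ‖hb (v + v' - v'')‖ * ‖f ω‖ := (hb (v + v' - v'')).le_opNorm _
      _ ≤ ‖T‖ * ‖v + v' - v''‖ * ‖f ω‖ := by
        gcongr
        exact hb2 _
  set N : Set Ω := {ω | ¬ ∀ v ∈ V0, ∀ v' ∈ V0, ∀ v'' ∈ V0,
      |hb v (f ω) + hb v' (f ω) - hb v'' (f ω)| ≤ ‖T‖ * ‖v + v' - v''‖ * ‖f ω‖} with hN
  have hN0 : μ N = 0 := hae
  have hNc : ∀ ω, ω ∉ N → ∀ v ∈ V0, ∀ v' ∈ V0, ∀ v'' ∈ V0,
      |hb v (f ω) + hb v' (f ω) - hb v'' (f ω)| ≤ ‖T‖ * ‖v + v' - v''‖ * ‖f ω‖ := by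
    intro ω hω
    by_contra h
    exact hω h
  -- bound
  have hbd : ∀ y, ∀ x : X, ∀ ε > (0 : ℝ), ∀ᶠ i in (U : Filter ι),
      |hb (r i y) x| ≤ ‖T‖ * ‖x‖ * ‖y‖ + ε := by
    intro y x ε hε
    have hpos : 0 < ‖T‖ * ‖x‖ + 1 := by positivity
    filter_upwards [hr1 y (ε / (‖T‖ * ‖x‖ + 1)) (div_pos hε hpos)] with i hi
    calc |hb (r i y) x| = ‖hb (r i y) x‖ := rfl
      _ ≤ ‖hb (r i y)‖ * ‖x‖ := (hb (r i y)).le_opNorm _
      _ ≤ (‖T‖ * ‖r i y‖) * ‖x‖ := by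
        gcongr
        exact hb2 _
      _ ≤ (‖T‖ * (‖y‖ + ε / (‖T‖ * ‖x‖ + 1))) * ‖x‖ := by gcongr
      _ = ‖T‖ * ‖x‖ * ‖y‖ + (‖T‖ * ‖x‖) * (ε / (‖T‖ * ‖x‖ + 1)) := by ring
      _ ≤ ‖T‖ * ‖x‖ * ‖y‖ + ε := by
        have h1 : (‖T‖ * ‖x‖) * (ε / (‖T‖ * ‖x‖ + 1)) ≤ (‖T‖ * ‖x‖ + 1) * (ε / (‖T‖ * ‖x‖ + 1)) := by
          gcongr
          linarith
        rw [mul_div_cancel₀ _ hpos.ne'] at h1
        linarith
  -- the functionals X_y
  have hX : ∀ y : Y, ∃ x : X →L[ℝ] ℝ, ‖x‖ ≤ ‖T‖ * ‖y‖ ∧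
      ∀ z : X, Tendsto (fun i => hb (r i y) z) (U : Filter ι) (𝓝 (x z)) := by
    intro y
    refine exists_clm U (fun i z => hb (r i y) z) (‖T‖ * ‖y‖) (by positivity) ?_ ?_
    · intro z ε hε
      filter_upwards [hbd y z ε hε] with i hi
      calc _ ≤ _ := hi
        _ = _ := by ring
    · intro z z'
      have : (fun i => hb (r i y) z + hb (r i y) z' - hb (r i y) (z + z')) = fun _ => (0 : ℝ) := by
        funext i
        rw [map_add]
        ring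
      rw [this]
      exact tendsto_const_nhds
  choose Xf hXn hXl using hX
  have hXe : ∀ y (e : E), Xf y e = T e y := by
    intro y e
    refine tendsto_nhds_unique (hXl y e) ?_
    have : (fun i => hb (r i y) (e : X)) = fun i => T e (r i y) := by
      funext i
      exact hb1 _ e
    rw [this]
    exact hr3 y e
  -- the function F
  have hF : ∀ ω, ∃ L : Y →L[ℝ] ℝ, ‖L‖ ≤ ‖T‖ * ‖f ω‖ ∧ (ω ∉ N → ∀ y, L y = Xf y (f ω)) := by
    intro ω
    by_cases hω : ω ∈ N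
    · refine ⟨0, ?_, fun h => absurd hω h⟩
      rw [norm_zero]
      positivity
    · obtain ⟨L, hL1, hL2⟩ := exists_clm U (fun i y => hb (r i y) (f ω)) (‖T‖ * ‖f ω‖)
        (by positivity) (fun y ε hε => hbd y (f ω) ε hε) (by
          intro y y'
          have h1 := (hr2 y y').const_mul (‖T‖ * ‖f ω‖)
          rw [mul_zero] at h1
          refine squeeze_zero_norm' ?_ h1
          filter_upwards with i
          have h2 := hNc ω hω _ (hr0 i y) _ (hr0 i y') _ (hr0 i (y + y'))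
          rw [Real.norm_eq_abs]
          calc _ ≤ _ := h2
            _ = _ := by ring)
      refine ⟨L, hL1, fun _ y => ?_⟩
      exact tendsto_nhds_unique (hL2 y) (hXl y (f ω))
  choose F hF1 hF2 using hF
  refine ⟨F, hF1, N, hN0, fun ζ => ?_⟩
  by_cases hζ : ζ = 0
  · refine ⟨0, ?_, ?_, ?_⟩
    · rw [norm_zero]
      positivity
    · intro e
      simp [hζ]
    · intro ω _
      simp [hζ]
  · have hζ' : 0 < ‖ζ‖ :=
      lt_of_le_of_ne (norm_nonneg ζ) (fun h => hζ (by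
        ext φ
        have := ζ.le_opNorm φ
        rw [← h, zero_mul] at this
        exact norm_le_zero_iff.mp this))
    obtain ⟨U', y, hy, hyl⟩ := goldstine ζ ‖ζ‖ hζ' le_rfl
    obtain ⟨x, hx1, hx2⟩ := exists_clm U' (fun i z => Xf (y i) z) (‖T‖ * ‖ζ‖) (by positivity)
      (by
        intro z ε hε
        filter_upwards with i
        calc |Xf (y i) z| = ‖Xf (y i) z‖ := rfl
          _ ≤ ‖Xf (y i)‖ * ‖z‖ := (Xf (y i)).le_opNorm _
          _ ≤ (‖T‖ * ‖y i‖) * ‖z‖ := by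
            gcongr
            exact hXn _
          _ ≤ (‖T‖ * ‖ζ‖) * ‖z‖ := by
            gcongr
            exact hy i
          _ ≤ (‖T‖ * ‖ζ‖) * ‖z‖ + ε := by linarith)
      (by
        intro z z'
        have : (fun i => Xf (y i) z + Xf (y i) z' - Xf (y i) (z + z')) = fun _ => (0 : ℝ) := by
          funext i
          rw [map_add]
          ring
        rw [this]
        exact tendsto_const_nhds)
    refine ⟨x, hx1, ?_, ?_⟩
    · intro e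
      refine tendsto_nhds_unique (hx2 e) ?_
      have : (fun i => Xf (y i) (e : X)) = fun i => T e (y i) := by
        funext i
        exact hXe _ e
      rw [this]
      exact hyl (T e)
    · intro ω hω
      refine tendsto_nhds_unique (hyl (F ω)) ?_
      have : (fun i => F ω (y i)) = fun i => Xf (y i) (f ω) := by
        funext i
        exact hF2 ω hω (y i)
      rw [this]
      exact hx2 (f ω)

/-- Transfer to the dual of a separable space. -/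
theorem transfer_sep {X Y : Type*} [NormedAddCommGroup X] [NormedSpace ℝ X] [NormedAddCommGroup Y]
    [NormedSpace ℝ Y] [TopologicalSpace.SeparableSpace Y] {Ω : Type*} [MeasurableSpace Ω]
    (μ : Measure Ω) (f : Ω → X) (E : Submodule ℝ X)
    (hf0 : ∀ φ : X →L[ℝ] ℝ, (∀ e ∈ E, φ e = 0) → ∀ᵐ ω ∂μ, φ (f ω) = 0)
    (T : E →L[ℝ] (Y →L[ℝ] ℝ)) :
    ∃ F : Ω → (Y →L[ℝ] ℝ), (∀ ω, ‖F ω‖ ≤ ‖T‖ * ‖f ω‖) ∧ ∃ N : Set Ω, μ N = 0 ∧
      ∀ ζ : (Y →L[ℝ] ℝ) →L[ℝ] ℝ, ∃ x : X →L[ℝ] ℝ, ‖x‖ ≤ ‖T‖ * ‖ζ‖ ∧ (∀ e : E, x e = ζ (T e)) ∧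
        ∀ ω, ω ∉ N → ζ (F ω) = x (f ω) := by
  classical
  let d := TopologicalSpace.denseSeq Y
  have hd : DenseRange d := TopologicalSpace.denseRange_denseSeq Y
  have h1 : ∀ (n : ℕ) (y : Y), ∃ k, ‖d k - y‖ < 1 / ((n : ℝ) + 1) := by
    intro n y
    obtain ⟨k, hk⟩ := hd.exists_dist_lt y (ε := 1 / ((n : ℝ) + 1)) (by positivity)
    refine ⟨k, ?_⟩
    rw [dist_comm, dist_eq_norm] at hk
    exact hk
  choose k hk using h1
  have hlim : ∀ y, Tendsto (fun n => d (k n y)) atTop (𝓝 y) := by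
    intro y
    rw [tendsto_iff_norm_sub_tendsto_zero]
    exact squeeze_zero (fun n => norm_nonneg _) (fun n => (hk n y).le)
      tendsto_one_div_add_atTop_nhds_zero_nat
  have hU : (hyperfilter ℕ : Filter ℕ) ≤ atTop := Nat.hyperfilter_le_atTop
  refine transfer μ f E hf0 T (hyperfilter ℕ) (Set.range d) (Set.countable_range d)
    (fun n y => d (k n y)) (fun n y => ⟨k n y, rfl⟩) ?_ ?_ ?_
  · intro y ε hε
    have h2 := (hlim y).norm.mono_left hU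
    exact (h2.eventually (gt_mem_nhds (show ‖y‖ < ‖y‖ + ε by linarith))).mono fun i hi => hi.le
  · intro y y'
    have h2 := (((hlim y).add (hlim y')).sub (hlim (y + y'))).norm.mono_left hU
    simpa using h2
  · intro y e
    exact (((T e).continuous.tendsto y).comp (hlim y)).mono_left hU

end PT
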