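import Mathlib
import Pool.Agent.Lib_helper59.PT.Transfer

set_option autoImplicit false
set_option maxSynthPendingDepth 3

open Filter Topology MeasureTheory

namespace PT

/-- A countable family of `n`-tuples of functionals approximating every `n`-tuple. -/
theorem tuple_approx {Z : Type*} [NormedAddCommGroup Z] [NormedSpace ℝ Z] (d : ℕ → Z) (n : ℕ) :
    ∃ c : ℕ → Fin n → (Z →L[ℝ] ℝ), ∀ (y : Fin n → (Z →L[ℝ] ℝ)) (k : ℕ) (ε : ℝ), 0 < ε →
      ∃ j, (∀ a b e : Fin n, |‖c j a + c j b - c j e‖ - ‖y a + y b - y e‖| < ε) ∧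
        (∀ a : Fin n, |‖c j a‖ - ‖y a‖| < ε) ∧
        (∀ (a : Fin n) (l : Fin k), |c j a (d l) - y a (d l)| < ε) := by
  classical
  let Φ : (Fin n → (Z →L[ℝ] ℝ)) →
      ((Fin n → Fin n → Fin n → ℝ) × (Fin n → ℝ) × (Fin n → ℕ → ℝ)) := fun y =>
    (fun a b e => ‖y a + y b - y e‖, fun a => ‖y a‖, fun a l => y a (d l))
  have hne : Nonempty (Set.range Φ) := ⟨⟨Φ 0, Set.mem_range_self 0⟩⟩
  let u : ℕ → Set.range Φ := TopologicalSpace.denseSeq (Set.range Φ)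
  have hu : DenseRange u := TopologicalSpace.denseRange_denseSeq _
  have hc : ∀ j, ∃ y, Φ y = (u j : _) := fun j => (u j).2
  choose c hc using hc
  refine ⟨c, fun y k ε hε => ?_⟩
  have h1 : ∀ᶠ p in 𝓝 (Φ y), (∀ a b e : Fin n, |p.1 a b e - (Φ y).1 a b e| < ε) ∧
      (∀ a : Fin n, |p.2.1 a - (Φ y).2.1 a| < ε) ∧
      (∀ (a : Fin n) (l : Fin k), |p.2.2 a l - (Φ y).2.2 a l| < ε) := by
    have key : ∀ (g : ((Fin n → Fin n → Fin n → ℝ) × (Fin n → ℝ) × (Fin n → ℕ → ℝ)) → ℝ),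
        Continuous g → ∀ᶠ p in 𝓝 (Φ y), |g p - g (Φ y)| < ε := by
      intro g hg
      have := Metric.tendsto_nhds.mp (hg.tendsto (Φ y)) ε hε
      simpa [Real.dist_eq] using this
    refine Filter.Eventually.and ?_ (Filter.Eventually.and ?_ ?_)
    · simp only [eventually_all]
      intro a b e
      exact key (fun p => p.1 a b e) (by fun_prop)
    · simp only [eventually_all]
      intro a
      exact key (fun p => p.2.1 a) (by fun_prop)
    · simp only [eventually_all]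
      intro a l
      exact key (fun p => p.2.2 a l) (by fun_prop)
  have h2 : ∀ᶠ q in 𝓝 (⟨Φ y, Set.mem_range_self y⟩ : Set.range Φ),
      (∀ a b e : Fin n, |(q : _).1.1 a b e - (Φ y).1 a b e| < ε) ∧
      (∀ a : Fin n, |(q : _).1.2.1 a - (Φ y).2.1 a| < ε) ∧
      (∀ (a : Fin n) (l : Fin k), |(q : _).1.2.2 a l - (Φ y).2.2 a l| < ε) :=
    (continuous_subtype_val.tendsto (⟨Φ y, Set.mem_range_self y⟩ : Set.range Φ)).eventually h1
  obtain ⟨O, hO, hOo, hyO⟩ := eventually_nhds_iff.mp h2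
  obtain ⟨j, hj⟩ := hu.exists_mem_open hOo ⟨_, hyO⟩
  have h3 := hO _ hj
  rw [← hc j] at h3
  exact ⟨j, h3.1, h3.2.1, h3.2.2⟩

/-- Elementary approximations in the dual of a separable space. -/
theorem exists_appr (Z : Type*) [NormedAddCommGroup Z] [NormedSpace ℝ Z]
    [TopologicalSpace.SeparableSpace Z] :
    ∃ (V0 : Set (Z →L[ℝ] ℝ)) (U : Ultrafilter (Finset (Z →L[ℝ] ℝ) × ℕ))
      (r : Finset (Z →L[ℝ] ℝ) × ℕ → (Z →L[ℝ] ℝ) → (Z →L[ℝ] ℝ)),
      V0.Countable ∧ (∀ i y, r i y ∈ V0) ∧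
      (∀ y, ∀ ε > (0 : ℝ), ∀ᶠ i in (U : Filter _), ‖r i y‖ ≤ ‖y‖ + ε) ∧
      (∀ y y', Tendsto (fun i => ‖r i y + r i y' - r i (y + y')‖) (U : Filter _) (𝓝 0)) ∧
      (∀ y (z : Z), Tendsto (fun i => r i y z) (U : Filter _) (𝓝 (y z))) := by
  classical
  let d := TopologicalSpace.denseSeq Z
  have hd : DenseRange d := TopologicalSpace.denseRange_denseSeq Z
  have h := tuple_approx (Z := Z) d
  choose c hc using h
  let V0 : Set (Z →L[ℝ] ℝ) := insert 0 (⋃ n, ⋃ j, Set.range (c n j))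
  have hV0 : V0.Countable := by
    refine Set.Countable.insert _ ?_
    exact Set.countable_iUnion fun n => Set.countable_iUnion fun j => Set.countable_range _
  -- the index of the tuple attached to `i`
  have hpick : ∀ i : Finset (Z →L[ℝ] ℝ) × ℕ, ∃ j,
      (∀ a b e : Fin i.1.card, |‖c i.1.card j a + c i.1.card j b - c i.1.card j e‖
        - ‖(i.1.equivFin.symm a : Z →L[ℝ] ℝ) + i.1.equivFin.symm b - i.1.equivFin.symm e‖|
          < 1 / ((i.2 : ℝ) + 1)) ∧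
        (∀ a : Fin i.1.card, |‖c i.1.card j a‖ - ‖(i.1.equivFin.symm a : Z →L[ℝ] ℝ)‖|
          < 1 / ((i.2 : ℝ) + 1)) ∧
        (∀ (a : Fin i.1.card) (l : Fin i.2), |c i.1.card j a (d l) -
          (i.1.equivFin.symm a : Z →L[ℝ] ℝ) (d l)| < 1 / ((i.2 : ℝ) + 1)) := by
    intro i
    exact hc i.1.card (fun a => (i.1.equivFin.symm a : Z →L[ℝ] ℝ)) i.2 _ (by positivity)
  choose j hj1 hj2 hj3 using hpick
  let r : Finset (Z →L[ℝ] ℝ) × ℕ → (Z →L[ℝ] ℝ) → (Z →L[ℝ] ℝ) := fun i y =>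
    if hy : y ∈ i.1 then c i.1.card (j i) (i.1.equivFin ⟨y, hy⟩) else 0
  have hr : ∀ i y (hy : y ∈ i.1), r i y = c i.1.card (j i) (i.1.equivFin ⟨y, hy⟩) := by
    intro i y hy
    simp only [r, dif_pos hy]
  have hn : ∀ i y, y ∈ i.1 → |‖r i y‖ - ‖y‖| < 1 / ((i.2 : ℝ) + 1) := by
    intro i y hy
    rw [hr i y hy]
    simpa using hj2 i (i.1.equivFin ⟨y, hy⟩)
  have ha : ∀ i y y' y'', y ∈ i.1 → y' ∈ i.1 → y'' ∈ i.1 →
      |‖r i y + r i y' - r i y''‖ - ‖y + y' - y''‖| < 1 / ((i.2 : ℝ) + 1) := by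
    intro i y y' y'' hy hy' hy''
    rw [hr i y hy, hr i y' hy', hr i y'' hy'']
    simpa using hj1 i (i.1.equivFin ⟨y, hy⟩) (i.1.equivFin ⟨y', hy'⟩) (i.1.equivFin ⟨y'', hy''⟩)
  have hv : ∀ i y, y ∈ i.1 → ∀ l : ℕ, l < i.2 → |r i y (d l) - y (d l)| < 1 / ((i.2 : ℝ) + 1) := by
    intro i y hy l hl
    rw [hr i y hy]
    simpa using hj3 i (i.1.equivFin ⟨y, hy⟩) ⟨l, hl⟩
  have hsmall : ∀ ε > (0 : ℝ), ∃ n : ℕ, ∀ m : ℕ, n ≤ m → 1 / ((m : ℝ) + 1) < ε := by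
    intro ε hε
    obtain ⟨n, hn⟩ := exists_nat_one_div_lt hε
    refine ⟨n, fun m hm => ?_⟩
    have h3 : (1 : ℝ) / ((m : ℝ) + 1) ≤ 1 / ((n : ℝ) + 1) := by
      apply one_div_le_one_div_of_le (by positivity)
      have : (n : ℝ) ≤ (m : ℝ) := by exact_mod_cast hm
      linarith
    linarith
  refine ⟨V0, Ultrafilter.of atTop, r, hV0, ?_, ?_, ?_, ?_⟩
  · intro i y
    by_cases hy : y ∈ i.1
    · rw [hr i y hy]
      refine Set.mem_insert_of_mem _ ?_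
      exact Set.mem_iUnion.mpr ⟨_, Set.mem_iUnion.mpr ⟨_, Set.mem_range_self _⟩⟩
    · simp only [r, dif_neg hy]
      exact Set.mem_insert _ _
  · intro y ε hε
    refine (Ultrafilter.of_le atTop) ?_
    obtain ⟨n, hn'⟩ := hsmall ε hε
    filter_upwards [eventually_ge_atTop (({y} : Finset (Z →L[ℝ] ℝ)), n)] with i hi
    have h1 := hn i y (hi.1 (by simp))
    have h2 := hn' i.2 hi.2
    have h3 := abs_lt.mp h1
    linarith [h3.2]
  · intro y y'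
    refine Tendsto.mono_left ?_ (Ultrafilter.of_le atTop)
    rw [Metric.tendsto_nhds]
    intro ε hε
    obtain ⟨n, hn'⟩ := hsmall ε hε
    filter_upwards [eventually_ge_atTop (({y, y', y + y'} : Finset (Z →L[ℝ] ℝ)), n)] with i hi
    have h1 := ha i y y' (y + y') (hi.1 (by simp)) (hi.1 (by simp)) (hi.1 (by simp))
    have h2 := hn' i.2 hi.2
    rw [sub_self, norm_zero] at h1
    rw [Real.dist_eq]
    linarith
  · intro y z
    refine Tendsto.mono_left ?_ (Ultrafilter.of_le atTop)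
    rw [Metric.tendsto_nhds]
    intro ε hε
    -- choose a point of the dense sequence
    have hpos : 0 < 2 * ‖y‖ + 1 := by positivity
    obtain ⟨l, hl⟩ := hd.exists_dist_lt z (ε := ε / 2 / (2 * ‖y‖ + 1)) (by positivity)
    obtain ⟨n, hn'⟩ := hsmall (min (ε / 2) 1) (by positivity)
    filter_upwards [eventually_ge_atTop (({y} : Finset (Z →L[ℝ] ℝ)), max n (l + 1))] with i hi
    have hi2 : max n (l + 1) ≤ i.2 := hi.2
    have hy : y ∈ i.1 := hi.1 (by simp)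
    have h1 := hv i y hy l (by omega)
    have h2 := hn' i.2 (by omega)
    have h2a : 1 / ((i.2 : ℝ) + 1) < ε / 2 := lt_of_lt_of_le h2 (min_le_left _ _)
    have h2b : 1 / ((i.2 : ℝ) + 1) < 1 := lt_of_lt_of_le h2 (min_le_right _ _)
    have h3 := (abs_lt.mp (hn i y hy)).2
    have h4 : ‖r i y - y‖ ≤ 2 * ‖y‖ + 1 := by
      calc ‖r i y - y‖ ≤ ‖r i y‖ + ‖y‖ := norm_sub_le _ _
        _ ≤ _ := by linarith
    have h5 : r i y z - y z = (r i y (d l) - y (d l)) + (r i y - y) (z - d l) := by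
      rw [map_sub, _root_.sub_apply, _root_.sub_apply]
      ring
    rw [Real.dist_eq, h5]
    calc |(r i y (d l) - y (d l)) + (r i y - y) (z - d l)|
        ≤ |r i y (d l) - y (d l)| + |(r i y - y) (z - d l)| := abs_add_le _ _
      _ ≤ |r i y (d l) - y (d l)| + ‖r i y - y‖ * ‖z - d l‖ := by
          gcongr
          exact (r i y - y).le_opNorm _
      _ ≤ |r i y (d l) - y (d l)| + (2 * ‖y‖ + 1) * (ε / 2 / (2 * ‖y‖ + 1)) := by
          gcongr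
          rw [← dist_eq_norm]
          exact hl.le
      _ = |r i y (d l) - y (d l)| + ε / 2 := by
          rw [mul_div_cancel₀ _ hpos.ne']
      _ < ε := by linarith

/-- Transfer to the bidual of a separable space. -/
theorem transfer_bidual {X Z : Type*} [NormedAddCommGroup X] [NormedSpace ℝ X]
    [NormedAddCommGroup Z] [NormedSpace ℝ Z] [TopologicalSpace.SeparableSpace Z] {Ω : Type*}
    [MeasurableSpace Ω] (μ : Measure Ω) (f : Ω → X) (E : Submodule ℝ X)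
    (hf0 : ∀ φ : X →L[ℝ] ℝ, (∀ e ∈ E, φ e = 0) → ∀ᵐ ω ∂μ, φ (f ω) = 0)
    (T : E →L[ℝ] Z) (C : ℝ) (hC : ‖(NormedSpace.inclusionInDoubleDual ℝ Z).comp T‖ ≤ C) :
    ∃ F : Ω → ((Z →L[ℝ] ℝ) →L[ℝ] ℝ), (∀ ω, ‖F ω‖ ≤ C * ‖f ω‖) ∧ ∃ N : Set Ω, μ N = 0 ∧
      ∀ ζ : ((Z →L[ℝ] ℝ) →L[ℝ] ℝ) →L[ℝ] ℝ, ∃ x : X →L[ℝ] ℝ, ‖x‖ ≤ C * ‖ζ‖ ∧
        (∀ e : E, x e = ζ (NormedSpace.inclusionInDoubleDual ℝ Z (T e))) ∧
        ∀ ω, ω ∉ N → ζ (F ω) = x (f ω) := by
  obtain ⟨V0, U, r, hV0, hr0, hr1, hr2, hr3⟩ := exists_appr Z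
  let T' : E →L[ℝ] ((Z →L[ℝ] ℝ) →L[ℝ] ℝ) := (NormedSpace.inclusionInDoubleDual ℝ Z).comp T
  obtain ⟨F, hF1, N, hN, hF2⟩ := transfer μ f E hf0 T' U V0 hV0 r hr0 hr1 hr2 (by
    intro y e
    exact hr3 y (T e))
  have hC' : ‖T'‖ ≤ C := hC
  refine ⟨F, fun ω => (hF1 ω).trans (by gcongr), N, hN, fun ζ => ?_⟩
  obtain ⟨x, hx1, hx2, hx3⟩ := hF2 ζ
  exact ⟨x, hx1.trans (by gcongr), hx2, hx3⟩

end PT
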