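import Mathlib

set_option autoImplicit false
set_option maxSynthPendingDepth 3

open Filter Topology MeasureTheory Function

namespace PT

/-- functionals vanishing on all integrals vanish almost everywhere along `f`. -/
theorem ae_zero {X : Type*} [NormedAddCommGroup X] [NormedSpace ℝ X] {Ω : Type*}
    [MeasurableSpace Ω] {μ : Measure Ω} {f : Ω → X}
    (hi : ∀ φ : X →L[ℝ] ℝ, Integrable (fun ω => φ (f ω)) μ)
    (hP : ∀ A : Set Ω, MeasurableSet A → ∃ v : X, ∀ φ : X →L[ℝ] ℝ, φ v = ∫ ω in A, φ (f ω) ∂μ)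
    (E : Submodule ℝ X)
    (hE : ∀ (A : Set Ω) (v : X), MeasurableSet A →
      (∀ φ : X →L[ℝ] ℝ, φ v = ∫ ω in A, φ (f ω) ∂μ) → v ∈ E)
    (φ : X →L[ℝ] ℝ) (hφ : ∀ e ∈ E, φ e = 0) : ∀ᵐ ω ∂μ, φ (f ω) = 0 := by
  refine (hi φ).ae_eq_zero_of_forall_setIntegral_eq_zero fun A hA _ => ?_
  obtain ⟨v, hv⟩ := hP A hA
  rw [← hv φ]
  exact hφ v (hE A v hA hv)

/-- a countable family of functionals separating the points of a separable space. -/
theorem exists_sep (W : Type*) [NormedAddCommGroup W] [NormedSpace ℝ W]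
    [TopologicalSpace.SeparableSpace W] :
    ∃ g : ℕ → (W →L[ℝ] ℝ), ∀ w, (∀ n, g n w = 0) → w = 0 := by
  let d := TopologicalSpace.denseSeq W
  have hd : DenseRange d := TopologicalSpace.denseRange_denseSeq W
  have h := fun n => exists_dual_vector'' ℝ (d n)
  choose g hg1 hg2 using h
  refine ⟨g, fun w hw => ?_⟩
  by_contra hne
  have hpos : 0 < ‖w‖ := norm_pos_iff.mpr hne
  obtain ⟨n, hn⟩ := hd.exists_dist_lt w (ε := ‖w‖ / 2) (by positivity)
  rw [dist_eq_norm] at hn
  have h1 : ‖d n‖ ≤ ‖w - d n‖ := by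
    have h2 : (‖d n‖ : ℝ) = g n (d n - w) := by
      rw [map_sub, hw n, sub_zero]
      exact (hg2 n).symm
    calc ‖d n‖ = g n (d n - w) := h2
      _ ≤ ‖g n (d n - w)‖ := le_abs_self _
      _ ≤ ‖g n‖ * ‖d n - w‖ := (g n).le_opNorm _
      _ ≤ 1 * ‖d n - w‖ := by gcongr; exact hg1 n
      _ = ‖w - d n‖ := by rw [one_mul, norm_sub_rev]
  have h3 : ‖w‖ ≤ ‖w - d n‖ + ‖d n‖ := by
    calc ‖w‖ = ‖(w - d n) + d n‖ := by rw [sub_add_cancel]
      _ ≤ _ := norm_add_le _ _
  linarith

/-- Pettis' measurability theorem for a separable Banach space. -/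
theorem aesm_of_weak {W : Type*} [NormedAddCommGroup W] [NormedSpace ℝ W] [CompleteSpace W]
    [TopologicalSpace.SeparableSpace W] {Ω : Type*} [MeasurableSpace Ω] {μ : Measure Ω}
    (H : Ω → W) (hH : ∀ φ : W →L[ℝ] ℝ, AEStronglyMeasurable (fun ω => φ (H ω)) μ) :
    AEStronglyMeasurable H μ := by
  have : SecondCountableTopology W := UniformSpace.secondCountable_of_separable W
  borelize W
  obtain ⟨g, hg⟩ := exists_sep W
  let Φ : W → (ℕ → ℝ) := fun w n => g n w
  have hΦ : Continuous Φ := by fun_prop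
  have hinj : Injective Φ := by
    intro w w' h
    rw [← sub_eq_zero]
    refine hg _ fun n => ?_
    rw [map_sub, sub_eq_zero]
    exact congrFun h n
  have hemb : MeasurableEmbedding Φ := hΦ.measurableEmbedding hinj
  have h1 : AEMeasurable (Φ ∘ H) μ := by
    rw [aemeasurable_pi_iff]
    intro n
    exact (hH (g n)).aemeasurable
  exact (hemb.aemeasurable_comp_iff.mp h1).aestronglyMeasurable

/-- The gliding hump: diagonal terms tend to zero. -/
theorem schur_diag (b : ℕ → ℕ → ℝ) (hs : ∀ k, Summable (fun j => |b k j|))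
    (h : ∀ M : Set ℕ, Tendsto (fun k => ∑' j, M.indicator (b k) j) atTop (𝓝 0)) :
    Tendsto (fun k => b k k) atTop (𝓝 0) := by
  classical
  by_contra hcon
  -- infinitely many k with |b k k| ≥ δ
  have h1 : ∃ δ > (0 : ℝ), ∃ᶠ k in atTop, δ ≤ |b k k| := by
    rw [Metric.tendsto_nhds] at hcon
    push Not at hcon
    obtain ⟨δ, hδ, hδ'⟩ := hcon
    refine ⟨δ, hδ, ?_⟩
    refine hδ'.mono fun k hk => ?_
    simpa [Real.dist_eq] using hk
  obtain ⟨δ, hδ, hfr⟩ := h1
  -- columns tend to zero
  have hcol : ∀ j, Tendsto (fun k => b k j) atTop (𝓝 0) := by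
    intro j
    have := h {j}
    have h2 : (fun k => ∑' i, ({j} : Set ℕ).indicator (b k) i) = fun k => b k j := by
      funext k
      rw [tsum_eq_single j]
      · simp
      · intro i hi
        simp [hi]
    rwa [h2] at this
  -- tails
  have htail : ∀ x, Tendsto (fun y => ∑' j, |b x (j + y)|) atTop (𝓝 0) := by
    intro x
    exact tendsto_sum_nat_add fun j => |b x j|
  have hstep : ∀ s : Finset ℕ, (∀ x ∈ s, δ ≤ |b x x|) → ∃ y, δ ≤ |b y y| ∧ ∀ x ∈ s,
      x < y ∧ |b y x| ≤ δ / 8 * (1 / 2) ^ x ∧ ∑' j, |b x (j + y)| ≤ δ / 8 := by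
    intro s _
    have h3 : ∀ᶠ y in atTop, ∀ x ∈ s,
        x < y ∧ |b y x| ≤ δ / 8 * (1 / 2) ^ x ∧ ∑' j, |b x (j + y)| ≤ δ / 8 := by
      rw [Filter.eventually_all_finset]
      intro x _
      refine (eventually_gt_atTop x).and (Filter.Eventually.and ?_ ?_)
      · have := (hcol x).abs
        rw [abs_zero] at this
        have h5 : (0 : ℝ) < δ / 8 * (1 / 2) ^ x := by positivity
        exact (this.eventually (gt_mem_nhds h5)).mono fun i hi => hi.le
      · have h5 : (0 : ℝ) < δ / 8 := by positivity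
        exact ((htail x).eventually (gt_mem_nhds h5)).mono fun i hi => hi.le
    obtain ⟨y, hy1, hy2⟩ := (hfr.and_eventually h3).exists
    exact ⟨y, hy1, hy2⟩
  obtain ⟨k, hk1, hk2⟩ := exists_seq_of_forall_finset_exists (fun x => δ ≤ |b x x|)
    (fun x y => x < y ∧ |b y x| ≤ δ / 8 * (1 / 2) ^ x ∧ ∑' j, |b x (j + y)| ≤ δ / 8) hstep
  have hmono : StrictMono k := fun m n hmn => (hk2 m n hmn).1
  -- the set M
  have hM := h (Set.range k)
  have hev := (hM.abs.comp hmono.tendsto_atTop)
  rw [abs_zero] at hev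
  obtain ⟨n, hn⟩ := (hev.eventually (gt_mem_nhds (show (0 : ℝ) < δ / 4 by positivity))).exists
  simp only [comp_apply] at hn
  -- estimate
  have hsum : Summable (fun j => b (k n) j) := (hs (k n)).of_abs
  have hsumM : Summable (fun j => (Set.range k).indicator (b (k n)) j) := hsum.indicator _
  set F : ℕ → ℝ := fun j => (Set.range k).indicator (b (k n)) j with hF
  have hFabs : ∀ j, |F j| ≤ |b (k n) j| := by
    intro j
    by_cases hj : j ∈ Set.range k
    · simp [hF, Set.indicator_of_mem hj]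
    · simp [hF, Set.indicator_of_notMem hj]
  -- decomposition of the sum
  have hdec : ∑' j, F j = ∑ j ∈ Finset.range (k n), F j + (F (k n) + ∑' j, F (j + (k n + 1))) := by
    have e1 := hsumM.sum_add_tsum_nat_add (k n + 1)
    rw [Finset.sum_range_succ] at e1
    rw [← e1]
    ring
  have hFkn : F (k n) = b (k n) (k n) := by
    simp [hF]
  have hlow : |∑ j ∈ Finset.range (k n), F j| ≤ δ / 4 := by
    calc |∑ j ∈ Finset.range (k n), F j| ≤ ∑ j ∈ Finset.range (k n), |F j| :=
          Finset.abs_sum_le_sum_abs _ _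
      _ ≤ ∑ j ∈ Finset.range (k n), δ / 8 * (1 / 2) ^ j := by
          refine Finset.sum_le_sum fun j hj => ?_
          by_cases hj' : j ∈ Set.range k
          · obtain ⟨m, rfl⟩ := hj'
            have hmn : m < n := hmono.lt_iff_lt.mp (Finset.mem_range.mp hj)
            exact (hFabs _).trans (hk2 m n hmn).2.1
          · simp only [hF, Set.indicator_of_notMem hj', abs_zero]
            positivity
      _ = δ / 8 * ∑ j ∈ Finset.range (k n), (1 / 2 : ℝ) ^ j := by rw [Finset.mul_sum]
      _ ≤ δ / 8 * 2 := by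
          gcongr
          exact sum_geometric_two_le _
      _ = δ / 4 := by ring
  have hhigh : |∑' j, F (j + (k n + 1))| ≤ δ / 8 := by
    -- all indices j+(k n+1) in range k are ≥ k (n+1)
    have hle : k n + 1 ≤ k (n + 1) := hmono (Nat.lt_succ_self n)
    obtain ⟨c, hc⟩ := Nat.exists_eq_add_of_le hle
    have hs1 : Summable (fun j => F (j + (k n + 1))) := (summable_nat_add_iff _).mpr hsumM
    have e1 := hs1.sum_add_tsum_nat_add c
    have hz : ∑ i ∈ Finset.range c, F (i + (k n + 1)) = 0 := by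
      refine Finset.sum_eq_zero fun i hi => ?_
      have hi' := Finset.mem_range.mp hi
      refine Set.indicator_of_notMem ?_ _
      rintro ⟨m, hm⟩
      have h6 : k n < k m := by omega
      have h7 : k m < k (n + 1) := by omega
      have := hmono.lt_iff_lt.mp h6
      have := hmono.lt_iff_lt.mp h7
      omega
    rw [hz, zero_add] at e1
    rw [← e1]
    have e2 : (fun i => F (i + c + (k n + 1))) = fun i => F (i + k (n + 1)) := by
      funext i
      congr 1
      omega
    rw [e2]
    have hs2 : Summable (fun i => |F (i + k (n + 1))|) := by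
      refine ((summable_nat_add_iff (k (n + 1))).mpr (hs (k n))).of_nonneg_of_le
        (fun i => abs_nonneg _) (fun i => hFabs _)
    calc |∑' i, F (i + k (n + 1))| ≤ ∑' i, |F (i + k (n + 1))| := by
          have := norm_tsum_le_tsum_norm (f := fun i => F (i + k (n + 1))) (by simpa using hs2)
          simpa using this
      _ ≤ ∑' i, |b (k n) (i + k (n + 1))| := by
          refine hs2.tsum_le_tsum (fun i => hFabs _) ?_
          exact (summable_nat_add_iff (k (n + 1))).mpr (hs (k n))
      _ ≤ δ / 8 := (hk2 n (n + 1) (Nat.lt_succ_self n)).2.2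
  have hd := hk1 n
  rw [hdec, hFkn] at hn
  have h8 : |b (k n) (k n)| ≤ |∑ j ∈ Finset.range (k n), F j + (b (k n) (k n) +
      ∑' j, F (j + (k n + 1)))| + |∑ j ∈ Finset.range (k n), F j| + |∑' j, F (j + (k n + 1))| := by
    have := abs_sub (∑ j ∈ Finset.range (k n), F j + (b (k n) (k n) +
      ∑' j, F (j + (k n + 1)))) (∑ j ∈ Finset.range (k n), F j)
    have h9 := abs_sub (∑ j ∈ Finset.range (k n), F j + (b (k n) (k n) +
      ∑' j, F (j + (k n + 1))) - ∑ j ∈ Finset.range (k n), F j) (∑' j, F (j + (k n + 1)))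
    have h10 : ∑ j ∈ Finset.range (k n), F j + (b (k n) (k n) + ∑' j, F (j + (k n + 1))) -
      ∑ j ∈ Finset.range (k n), F j - ∑' j, F (j + (k n + 1)) = b (k n) (k n) := by ring
    rw [h10] at h9
    linarith
  linarith

end PT
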