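import Mathlib
import Pool.Agent.Lib_helper59.PT.Compact

set_option autoImplicit false
set_option maxSynthPendingDepth 3

open Filter Topology MeasureTheory Function

namespace PT

/-- disjoint sets cannot carry large values of the integrals. -/
theorem no_hump {W : Type*} [NormedAddCommGroup W] [NormedSpace ℝ W]
    [TopologicalSpace.SeparableSpace W] {Ω : Type*} [MeasurableSpace Ω] {μ : Measure Ω}
    (H : Ω → W) (hi : ∀ φ : W →L[ℝ] ℝ, Integrable (fun ω => φ (H ω)) μ)
    (hP : ∀ A : Set Ω, MeasurableSet A → ∃ v : W, ∀ φ : W →L[ℝ] ℝ, φ v = ∫ ω in A, φ (H ω) ∂μ)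
    (δ : ℝ) (hδ : 0 < δ) (A : ℕ → Set Ω) (hA : ∀ k, MeasurableSet (A k))
    (hd : Pairwise (Disjoint on A)) (w : ℕ → (W →L[ℝ] ℝ)) (hw : ∀ k, ‖w k‖ ≤ 1)
    (hbig : ∀ k, δ ≤ |∫ ω in A k, w k (H ω) ∂μ|) : False := by
  classical
  -- weak* convergent subsequence
  have hseq := WeakDual.isSeqCompact_closedBall ℝ W (0 : W →L[ℝ] ℝ) 1
  have hmem : ∀ k, StrongDual.toWeakDual (w k) ∈
      WeakDual.toStrongDual ⁻¹' Metric.closedBall (0 : StrongDual ℝ W) 1 := by
    intro k
    simp only [Set.mem_preimage, Metric.mem_closedBall, dist_zero_right]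
    exact hw k
  obtain ⟨w0', hw0', s, hs, hlim⟩ := hseq hmem
  let w0 : W →L[ℝ] ℝ := WeakDual.toStrongDual w0'
  have hlim' : ∀ z : W, Tendsto (fun k => w (s k) z) atTop (𝓝 (w0 z)) := by
    intro z
    have := (WeakDual.eval_continuous (𝕜 := ℝ) z).continuousAt (x := w0')
    exact this.tendsto.comp hlim
  have hsum : ∀ (φ : W →L[ℝ] ℝ) (M : Set ℕ),
      HasSum (fun j => M.indicator (fun j => ∫ ω in A (s j), φ (H ω) ∂μ) j)
        (∫ ω in ⋃ j, (if j ∈ M then A (s j) else ∅), φ (H ω) ∂μ) := by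
    intro φ M
    have h1 := hasSum_integral_iUnion (μ := μ) (f := fun ω => φ (H ω))
      (s := fun j => if j ∈ M then A (s j) else ∅) (by
        intro j
        by_cases hj : j ∈ M
        · simp only [hj, if_true]; exact hA _
        · simp [hj]) (by
        intro i j hij
        simp only [Function.onFun]
        by_cases hi' : i ∈ M
        · by_cases hj' : j ∈ M
          · simp only [hi', hj', if_true]
            exact hd (fun h => hij (hs.injective h))
          · simp [hj']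
        · simp [hi']) (hi φ).integrableOn
    have h2 : (fun j => M.indicator (fun j => ∫ ω in A (s j), φ (H ω) ∂μ) j) =
        fun j => ∫ ω in (if j ∈ M then A (s j) else ∅), φ (H ω) ∂μ := by
      funext j
      by_cases hj : j ∈ M
      · simp [hj]
      · simp [hj]
    rw [h2]
    exact h1
  have hsum1 : ∀ (φ : W →L[ℝ] ℝ), Summable (fun j => ∫ ω in A (s j), φ (H ω) ∂μ) := by
    intro φ
    have := (hsum φ Set.univ).summable
    simpa using this
  let b : ℕ → ℕ → ℝ := fun k j => ∫ ω in A (s j), (w (s k) - w0) (H ω) ∂μ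
  have hb1 : ∀ k, Summable (fun j => |b k j|) := fun k => (hsum1 (w (s k) - w0)).abs
  have hb2 : ∀ M : Set ℕ, Tendsto (fun k => ∑' j, M.indicator (b k) j) atTop (𝓝 0) := by
    intro M
    have hAM : MeasurableSet (⋃ j, (if j ∈ M then A (s j) else ∅)) := by
      refine MeasurableSet.iUnion fun j => ?_
      by_cases hj : j ∈ M
      · simp only [hj, if_true]; exact hA _
      · simp [hj]
    obtain ⟨v, hv⟩ := hP _ hAM
    have h2 : (fun k => ∑' j, M.indicator (b k) j) = fun k => (w (s k) - w0) v := by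
      funext k
      rw [hv]
      exact (hsum (w (s k) - w0) M).tsum_eq
    rw [h2]
    have h3 := (hlim' v).sub_const (w0 v)
    rw [sub_self] at h3
    exact h3
  have hdiag := schur_diag b hb1 hb2
  have h0 : Tendsto (fun k => ∫ ω in A (s k), w0 (H ω) ∂μ) atTop (𝓝 0) :=
    (hsum1 w0).tendsto_atTop_zero
  have h4 := hdiag.add h0
  rw [add_zero] at h4
  have h5 : (fun k => b k k + ∫ ω in A (s k), w0 (H ω) ∂μ) =
      fun k => ∫ ω in A (s k), w (s k) (H ω) ∂μ := by
    funext k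
    simp only [b]
    rw [← integral_add (hi (w (s k) - w0)).integrableOn (hi w0).integrableOn]
    refine integral_congr_ae ?_
    filter_upwards with ω
    rw [_root_.sub_apply]
    ring
  rw [h5] at h4
  have h6 := h4.abs
  rw [abs_zero] at h6
  obtain ⟨k, hk⟩ := (h6.eventually (gt_mem_nhds hδ)).exists
  exact absurd (hbig (s k)) (not_le.mpr hk)

/-- a measurable part carrying at least half of the absolute integral. -/
theorem half_part {Ω : Type*} [MeasurableSpace Ω] {μ : Measure Ω} (g : Ω → ℝ)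
    (hg : Integrable g μ) (B : Set Ω) (hB : MeasurableSet B) (ε : ℝ)
    (h : ε < ∫ ω in B, |g ω| ∂μ) :
    ∃ A : Set Ω, MeasurableSet A ∧ A ⊆ B ∧ ε / 2 ≤ |∫ ω in A, g ω ∂μ| := by
  -- measurable representative
  obtain ⟨g', hg'm, hgg'⟩ := hg.aestronglyMeasurable
  have hg' : Integrable g' μ := hg.congr hgg'
  let P : Set Ω := {ω | 0 ≤ g' ω}
  have hPm : MeasurableSet P := measurableSet_le measurable_const hg'm.measurable
  have h1 : ∫ ω in B, |g ω| ∂μ = (∫ ω in B ∩ P, g ω ∂μ) - ∫ ω in B ∩ Pᶜ, g ω ∂μ := by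
    have e1 : ∫ ω in B, |g ω| ∂μ = (∫ ω in B ∩ P, |g ω| ∂μ) + ∫ ω in B ∩ Pᶜ, |g ω| ∂μ := by
      rw [← setIntegral_union]
      · rw [← Set.inter_union_distrib_left, Set.union_compl_self, Set.inter_univ]
      · exact (disjoint_compl_right).mono Set.inter_subset_right Set.inter_subset_right
      · exact hB.inter hPm.compl
      · exact hg.abs.integrableOn
      · exact hg.abs.integrableOn
    have e2 : ∫ ω in B ∩ P, |g ω| ∂μ = ∫ ω in B ∩ P, g ω ∂μ := by
      refine setIntegral_congr_ae (hB.inter hPm) ?_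
      filter_upwards [hgg'] with ω hω hωP
      have : 0 ≤ g' ω := hωP.2
      rw [hω, abs_of_nonneg this]
    have e3 : ∫ ω in B ∩ Pᶜ, |g ω| ∂μ = - ∫ ω in B ∩ Pᶜ, g ω ∂μ := by
      rw [← integral_neg]
      refine setIntegral_congr_ae (hB.inter hPm.compl) ?_
      filter_upwards [hgg'] with ω hω hωP
      have : ¬ (0 ≤ g' ω) := hωP.2
      rw [hω, abs_of_neg (not_le.mp this)]
    rw [e1, e2, e3]
    ring
  by_cases h2 : ε / 2 ≤ |∫ ω in B ∩ P, g ω ∂μ|
  · exact ⟨B ∩ P, hB.inter hPm, Set.inter_subset_left, h2⟩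
  · refine ⟨B ∩ Pᶜ, hB.inter hPm.compl, Set.inter_subset_left, ?_⟩
    rw [not_le] at h2
    have h3 := le_abs_self (∫ ω in B ∩ P, g ω ∂μ)
    have h4 := neg_abs_le (∫ ω in B ∩ Pᶜ, g ω ∂μ)
    linarith

/-- Uniformly small tails. -/
theorem small_tails {W : Type*} [NormedAddCommGroup W] [NormedSpace ℝ W]
    [TopologicalSpace.SeparableSpace W] {Ω : Type*} [MeasurableSpace Ω] {μ : Measure Ω}
    (H : Ω → W) (hi : ∀ φ : W →L[ℝ] ℝ, Integrable (fun ω => φ (H ω)) μ)
    (hP : ∀ A : Set Ω, MeasurableSet A → ∃ v : W, ∀ φ : W →L[ℝ] ℝ, φ v = ∫ ω in A, φ (H ω) ∂μ)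
    (C : ℕ → Set Ω) (hC : ∀ n, MeasurableSet (C n)) (hanti : Antitone C) (hempty : ⋂ n, C n = ∅)
    (ε : ℝ) (hε : 0 < ε) :
    ∃ n, ∀ φ : W →L[ℝ] ℝ, ‖φ‖ ≤ 1 → ∫ ω in C n, |φ (H ω)| ∂μ ≤ ε := by
  classical
  by_contra hcon
  push Not at hcon
  choose w hw1 hw2 using hcon
  have hm : ∀ n, ∃ m, n < m ∧ ∫ ω in C m, |w n (H ω)| ∂μ < ε / 2 := by
    intro n
    have h1 := tendsto_setIntegral_of_antitone (μ := μ) (f := fun ω => |w n (H ω)|) hC hanti
      ⟨0, (hi (w n)).abs.integrableOn⟩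
    rw [hempty, setIntegral_empty] at h1
    have h2 := (h1.eventually (gt_mem_nhds (show (0 : ℝ) < ε / 2 by positivity))).and
      (eventually_gt_atTop n)
    obtain ⟨m, hm1, hm2⟩ := h2.exists
    exact ⟨m, hm2, hm1⟩
  choose m hm1 hm2 using hm
  let q : ℕ → ℕ := fun k => m^[k] 0
  have hq : ∀ k, q (k + 1) = m (q k) := fun k => Function.iterate_succ_apply' m k 0
  have hqmono : StrictMono q := strictMono_nat_of_lt_succ fun k => by
    rw [hq]
    exact hm1 _
  let B : ℕ → Set Ω := fun k => C (q k) \ C (q (k + 1))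
  have hB : ∀ k, MeasurableSet (B k) := fun k => (hC _).diff (hC _)
  have hBd : Pairwise (Disjoint on B) := by
    have key : ∀ i j, i < j → Disjoint (B i) (B j) := by
      intro i j hij
      rw [Set.disjoint_left]
      intro ω h1 h2
      have h3 : q (i + 1) ≤ q j := hqmono.monotone hij
      exact h1.2 (hanti h3 h2.1)
    intro i j hij
    rcases lt_or_gt_of_ne hij with h | h
    · exact key i j h
    · exact (key j i h).symm
  have hBint : ∀ k, ε / 2 < ∫ ω in B k, |w (q k) (H ω)| ∂μ := by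
    intro k
    have e1 : ∫ ω in C (q k), |w (q k) (H ω)| ∂μ = (∫ ω in B k, |w (q k) (H ω)| ∂μ) +
        ∫ ω in C (q (k + 1)), |w (q k) (H ω)| ∂μ := by
      rw [← setIntegral_union]
      · congr 2
        rw [Set.sdiff_union_of_subset (hanti (hqmono.monotone (Nat.le_succ k)))]
      · exact Set.disjoint_sdiff_left
      · exact hC _
      · exact (hi (w (q k))).abs.integrableOn
      · exact (hi (w (q k))).abs.integrableOn
    have e2 := hw2 (q k)
    have e3 := hm2 (q k)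
    rw [← hq] at e3
    linarith
  have hA := fun k => half_part (fun ω => w (q k) (H ω)) (hi (w (q k))) (B k) (hB k) (ε / 2)
    (hBint k)
  choose A hA1 hA2 hA3 using hA
  refine no_hump H hi hP (ε / 2 / 2) (by positivity) A hA1 ?_ (fun k => w (q k))
    (fun k => hw1 (q k)) hA3
  intro i j hij
  exact (hBd hij).mono (hA2 i) (hA2 j)

/-- a set approximable by compact sets is totally bounded. -/
theorem totallyBounded_of_near {W : Type*} [NormedAddCommGroup W] (S : Set W)
    (h : ∀ ε > (0 : ℝ), ∃ K : Set W, IsCompact K ∧ ∀ x ∈ S, ∃ y ∈ K, ‖x - y‖ ≤ ε) :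
    TotallyBounded S := by
  rw [Metric.totallyBounded_iff]
  intro ε hε
  obtain ⟨K, hK, hKS⟩ := h (ε / 3) (by positivity)
  obtain ⟨t, ht, htK⟩ := Metric.totallyBounded_iff.mp hK.totallyBounded (ε / 3) (by positivity)
  refine ⟨t, ht, fun x hx => ?_⟩
  obtain ⟨y, hy, hxy⟩ := hKS x hx
  obtain ⟨z, hz, hyz⟩ := Set.mem_iUnion₂.mp (htK hy)
  refine Set.mem_iUnion₂.mpr ⟨z, hz, ?_⟩
  rw [Metric.mem_ball] at hyz ⊢
  calc dist x z ≤ dist x y + dist y z := dist_triangle _ _ _
    _ < ε / 3 + ε / 3 + ε / 3 := by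
        rw [dist_eq_norm x y]
        linarith
    _ = ε := by ring

/-- integrals of a simple function lie in a compact set. -/
theorem simple_compact {W : Type*} [NormedAddCommGroup W] [NormedSpace ℝ W] [CompleteSpace W]
    {Ω : Type*} [MeasurableSpace Ω] {μ : Measure Ω} [IsFiniteMeasure μ] (s : SimpleFunc Ω W) :
    ∃ K : Set W, IsCompact K ∧ ∀ A : Set Ω, MeasurableSet A → ∫ ω in A, s ω ∂μ ∈ K := by
  classical
  let g : (s.range → ℝ) → W := fun t => ∑ x, t x • (x : W)
  have hg : Continuous g := by fun_prop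
  refine ⟨g '' (Set.univ.pi fun _ => Set.Icc 0 (μ.real Set.univ)),
    (isCompact_univ_pi fun _ => isCompact_Icc).image hg, fun A hA => ?_⟩
  refine ⟨fun x => (μ.restrict A).real (s ⁻¹' {(x : W)}), ?_, ?_⟩
  · intro x _
    refine ⟨measureReal_nonneg, ?_⟩
    calc (μ.restrict A).real (s ⁻¹' {(x : W)}) ≤ (μ.restrict A).real Set.univ :=
          measureReal_mono (Set.subset_univ _)
      _ = μ.real A := by simp
      _ ≤ μ.real Set.univ := measureReal_mono (Set.subset_univ _)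
  · have hint : Integrable s (μ.restrict A) := SimpleFunc.integrable_of_isFiniteMeasure s
    rw [← SimpleFunc.integral_eq_integral s hint, SimpleFunc.integral_eq]
    simp only [g]
    rw [Finset.sum_coe_sort s.range (fun x => (μ.restrict A).real (s ⁻¹' {x}) • x)]

/-- The range of the indefinite Pettis integral of a function with values in a separable Banach
space is relatively norm compact. -/
theorem compact_range {W : Type*} [NormedAddCommGroup W] [NormedSpace ℝ W] [CompleteSpace W]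
    [TopologicalSpace.SeparableSpace W] {Ω : Type*} [MeasurableSpace Ω] {μ : Measure Ω}
    [IsFiniteMeasure μ]
    (H : Ω → W) (hi : ∀ φ : W →L[ℝ] ℝ, Integrable (fun ω => φ (H ω)) μ)
    (hP : ∀ A : Set Ω, MeasurableSet A → ∃ v : W, ∀ φ : W →L[ℝ] ℝ, φ v = ∫ ω in A, φ (H ω) ∂μ) :
    IsCompact (closure {v : W | ∃ A : Set Ω, MeasurableSet A ∧
      ∀ φ : W →L[ℝ] ℝ, φ v = ∫ ω in A, φ (H ω) ∂μ}) := by
  have hsm : AEStronglyMeasurable H μ := aesm_of_weak H fun φ => (hi φ).aestronglyMeasurable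
  obtain ⟨H', hH'm, hHH'⟩ := hsm
  have hcongr : ∀ (φ : W →L[ℝ] ℝ), (fun ω => φ (H ω)) =ᵐ[μ] fun ω => φ (H' ω) := by
    intro φ
    filter_upwards [hHH'] with ω hω
    rw [hω]
  have hi' : ∀ φ : W →L[ℝ] ℝ, Integrable (fun ω => φ (H' ω)) μ := fun φ => (hi φ).congr (hcongr φ)
  have hint' : ∀ (φ : W →L[ℝ] ℝ) (A : Set Ω), ∫ ω in A, φ (H ω) ∂μ = ∫ ω in A, φ (H' ω) ∂μ :=
    fun φ A => integral_congr_ae (ae_restrict_of_ae (hcongr φ))
  have hP' : ∀ A : Set Ω, MeasurableSet A →
      ∃ v : W, ∀ φ : W →L[ℝ] ℝ, φ v = ∫ ω in A, φ (H' ω) ∂μ := by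
    intro A hA
    obtain ⟨v, hv⟩ := hP A hA
    exact ⟨v, fun φ => by rw [hv, hint']⟩
  refine TotallyBounded.isCompact_of_isClosed ?_ isClosed_closure
  refine TotallyBounded.closure ?_
  refine totallyBounded_of_near _ fun ε hε => ?_
  let C : ℕ → Set Ω := fun n => {ω | (n : ℝ) < ‖H' ω‖}
  have hC : ∀ n, MeasurableSet (C n) := fun n =>
    measurableSet_lt measurable_const hH'm.norm.measurable
  have hanti : Antitone C := by
    intro a b hab ω hω
    have h1 : (b : ℝ) < ‖H' ω‖ := hω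
    have h2 : (a : ℝ) ≤ b := by exact_mod_cast hab
    exact lt_of_le_of_lt h2 h1
  have hempty : ⋂ n, C n = ∅ := by
    rw [Set.eq_empty_iff_forall_notMem]
    intro ω hω
    obtain ⟨n, hn⟩ := exists_nat_gt ‖H' ω‖
    have h1 : (n : ℝ) < ‖H' ω‖ := Set.mem_iInter.mp hω n
    linarith
  obtain ⟨n, hn⟩ := small_tails H' hi' hP' C hC hanti hempty (ε / 2) (by positivity)
  let G : Ω → W := (C n)ᶜ.indicator H'
  have hGm : StronglyMeasurable G := hH'm.indicator (hC n).compl
  have hGb : ∀ ω, ‖G ω‖ ≤ n := by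
    intro ω
    by_cases hω : ω ∈ C n
    · have : G ω = 0 := by simp [G, hω]
      rw [this, norm_zero]
      positivity
    · have : G ω = H' ω := by simp [G, hω]
      rw [this]
      exact not_lt.mp hω
  have hGi : Integrable G μ := Integrable.of_bound hGm.aestronglyMeasurable n
    (Filter.Eventually.of_forall hGb)
  obtain ⟨s, hs1, hs2⟩ := (memLp_one_iff_integrable.mpr hGi).exists_simpleFunc_eLpNorm_sub_lt
    ENNReal.one_ne_top (ε := ENNReal.ofReal (ε / 2)) (by simpa using hε)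
  have hsi : Integrable s μ := memLp_one_iff_integrable.mp hs2
  have hs3 : ∫ ω, ‖G ω - s ω‖ ∂μ ≤ ε / 2 := by
    have h1 := hs1.le
    rw [eLpNorm_one_eq_lintegral_enorm] at h1
    have h2 := integral_norm_eq_lintegral_enorm (hGi.sub hsi).aestronglyMeasurable
    have h3 : ∫ ω, ‖(G - s) ω‖ ∂μ ≤ ε / 2 := by
      rw [h2]
      exact ENNReal.toReal_le_of_le_ofReal (by positivity) h1
    exact h3
  obtain ⟨K, hK, hKs⟩ := simple_compact (μ := μ) s
  refine ⟨K, hK, fun v hv => ?_⟩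
  obtain ⟨A, hA, hvA⟩ := hv
  refine ⟨∫ ω in A, s ω ∂μ, hKs A hA, ?_⟩
  obtain ⟨φ, hφ1, hφ2⟩ := exists_dual_vector'' ℝ (v - ∫ ω in A, s ω ∂μ)
  have hφ2' : φ (v - ∫ ω in A, s ω ∂μ) = ‖v - ∫ ω in A, s ω ∂μ‖ := hφ2
  rw [← hφ2', map_sub, hvA, hint']
  have hcomm : φ (∫ ω in A, s ω ∂μ) = ∫ ω in A, φ (s ω) ∂μ :=
    (φ.integral_comp_comm hsi.integrableOn).symm
  rw [hcomm]
  have hφs : Integrable (fun ω => φ (s ω)) μ := φ.integrable_comp hsi
  have hφG : Integrable (fun ω => φ (G ω)) μ := φ.integrable_comp hGi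
  have hsplit : ∫ ω in A, φ (H' ω) ∂μ = (∫ ω in A, φ (G ω) ∂μ) + ∫ ω in A ∩ C n, φ (H' ω) ∂μ := by
    have e1 : ∫ ω in A ∩ C n, φ (H' ω) ∂μ = ∫ ω in A, (C n).indicator (fun ω => φ (H' ω)) ω ∂μ := by
      rw [setIntegral_indicator (hC n)]
    rw [e1, ← integral_add hφG.integrableOn ((hi' φ).indicator (hC n)).integrableOn]
    refine integral_congr_ae ?_
    filter_upwards with ω
    by_cases hω : ω ∈ C n
    · simp [G, hω]
    · simp [G, hω]
  rw [hsplit]
  have b1 : |∫ ω in A ∩ C n, φ (H' ω) ∂μ| ≤ ε / 2 := by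
    calc |∫ ω in A ∩ C n, φ (H' ω) ∂μ| ≤ ∫ ω in A ∩ C n, |φ (H' ω)| ∂μ := by
          simpa using norm_integral_le_integral_norm (μ := μ.restrict (A ∩ C n))
            (fun ω => φ (H' ω))
      _ ≤ ∫ ω in C n, |φ (H' ω)| ∂μ := by
          refine setIntegral_mono_set (hi' φ).abs.integrableOn ?_ ?_
          · filter_upwards with ω
            exact abs_nonneg _
          · exact (Set.inter_subset_right).eventuallyLE
      _ ≤ ε / 2 := hn φ hφ1
  have b2 : |(∫ ω in A, φ (G ω) ∂μ) - ∫ ω in A, φ (s ω) ∂μ| ≤ ε / 2 := by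
    rw [← integral_sub hφG.integrableOn hφs.integrableOn]
    calc |∫ ω in A, (φ (G ω) - φ (s ω)) ∂μ| ≤ ∫ ω in A, |φ (G ω) - φ (s ω)| ∂μ := by
          simpa using norm_integral_le_integral_norm (μ := μ.restrict A)
            (fun ω => φ (G ω) - φ (s ω))
      _ ≤ ∫ ω, |φ (G ω) - φ (s ω)| ∂μ := by
          refine setIntegral_le_integral (hφG.sub hφs).abs ?_
          filter_upwards with ω
          exact abs_nonneg _
      _ ≤ ∫ ω, ‖G ω - s ω‖ ∂μ := by
          refine integral_mono (hφG.sub hφs).abs (hGi.sub hsi).norm fun ω => ?_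
          simp only
          rw [← map_sub]
          calc |φ (G ω - s ω)| ≤ ‖φ‖ * ‖G ω - s ω‖ := φ.le_opNorm _
            _ ≤ 1 * ‖G ω - s ω‖ := by gcongr
            _ = _ := one_mul _
      _ ≤ ε / 2 := hs3
  have := abs_le.mp b1
  have := abs_le.mp b2
  linarith

end PT
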