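import Mathlib

set_option autoImplicit false
set_option maxSynthPendingDepth 3

open Filter Topology MeasureTheory Function MeasurableSpace ProbabilityTheory

namespace PT

variable {K : Type*} [mK : MeasurableSpace K] [CountablyGenerated K]

/-- the density process of a set function. -/
noncomputable def dens (ρ : Measure K) (a : Set K → ℝ) (n : ℕ) (x : K) : ℝ :=
  a (countablePartitionSet n x) / ρ.real (countablePartitionSet n x)

theorem dens_of_mem (ρ : Measure K) (a : Set K → ℝ) (n : ℕ) {A : Set K}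
    (hA : A ∈ countablePartition K n) {x : K} (hx : x ∈ A) :
    dens ρ a n x = a A / ρ.real A := by
  rw [dens, countablePartitionSet_of_mem hA hx]

theorem measurable_dens (ρ : Measure K) (a : Set K → ℝ) (n : ℕ) :
    Measurable[countableFiltration K n] (dens ρ a n) := by
  have h1 : @Measurable _ _ ⊤ _
      (fun p : countablePartition K n => a p / ρ.real (p : Set K)) := fun s _ => trivial
  exact h1.comp (measurable_countablePartitionSet_subtype n ⊤)

theorem stronglyMeasurable_dens (ρ : Measure K) (a : Set K → ℝ) (n : ℕ) :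
    StronglyMeasurable[countableFiltration K n] (dens ρ a n) :=
  (measurable_dens ρ a n).stronglyMeasurable

theorem integrable_dens (ρ : Measure K) [IsFiniteMeasure ρ] (a : Set K → ℝ) (n : ℕ) :
    Integrable (dens ρ a n) ρ := by
  classical
  have hfin := finite_countablePartition K n
  refine Integrable.of_bound
    ((stronglyMeasurable_dens ρ a n).mono ((countableFiltration K).le n)).aestronglyMeasurable
    (∑ A ∈ hfin.toFinset, |a A / ρ.real A|) (Eventually.of_forall fun x => ?_)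
  rw [Real.norm_eq_abs, dens]
  exact Finset.single_le_sum (f := fun A => |a A / ρ.real A|) (fun _ _ => abs_nonneg _)
    (hfin.mem_toFinset.mpr (countablePartitionSet_mem n x))

theorem setIntegral_dens_mem (ρ : Measure K) [IsFiniteMeasure ρ] (a : Set K → ℝ) (n : ℕ)
    {A : Set K} (hA : A ∈ countablePartition K n) (h0 : ρ A = 0 → a A = 0) :
    ∫ x in A, dens ρ a n x ∂ρ = a A := by
  have hAm := measurableSet_countablePartition n hA
  rw [setIntegral_congr_fun hAm (g := fun _ => a A / ρ.real A)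
    (fun x hx => dens_of_mem ρ a n hA hx)]
  rw [setIntegral_const, smul_eq_mul]
  by_cases h : ρ A = 0
  · rw [h0 h]; simp
  · have h1 : ρ.real A ≠ 0 := by
      rw [measureReal_def, ENNReal.toReal_ne_zero]
      exact ⟨h, measure_ne_top _ _⟩
    field_simp

theorem setIntegral_sUnion (ρ : Measure K) (g : K → ℝ) (hg : Integrable g ρ) (n : ℕ)
    (S : Finset (Set K)) (hS : (S : Set (Set K)) ⊆ countablePartition K n) :
    ∫ x in ⋃₀ (S : Set (Set K)), g x ∂ρ = ∑ A ∈ S, ∫ x in A, g x ∂ρ := by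
  have h1 : ⋃₀ (S : Set (Set K)) = ⋃ A ∈ S, A := by
    rw [Set.sUnion_eq_biUnion]
    rfl
  rw [h1]
  refine integral_biUnion_finset S (fun A hA => measurableSet_countablePartition n (hS hA)) ?_
    (fun A _ => hg.integrableOn)
  intro A hA B hB hAB
  exact disjoint_countablePartition (hS hA) (hS hB) hAB

theorem setIntegral_dens (ρ : Measure K) [IsFiniteMeasure ρ] (a : Set K → ℝ)
    (h0 : ∀ n, ∀ A ∈ countablePartition K n, ρ A = 0 → a A = 0)
    (hadd : ∀ n, ∀ S : Finset (Set K), (S : Set (Set K)) ⊆ countablePartition K n →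
      a (⋃₀ (S : Set (Set K))) = ∑ A ∈ S, a A) (n : ℕ) (s : Set K)
    (hs : MeasurableSet[countableFiltration K n] s) :
    ∫ x in s, dens ρ a n x ∂ρ = a s := by
  obtain ⟨S, hS, rfl⟩ := (measurableSet_generateFrom_countablePartition_iff _ _).mp hs
  rw [setIntegral_sUnion ρ _ (integrable_dens ρ a n) n S hS, hadd n S hS]
  exact Finset.sum_congr rfl fun A hA => setIntegral_dens_mem ρ a n (hS hA) (h0 n A (hS hA))

theorem martingale_dens (ρ : Measure K) [IsFiniteMeasure ρ] (a : Set K → ℝ)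
    (h0 : ∀ n, ∀ A ∈ countablePartition K n, ρ A = 0 → a A = 0)
    (hadd : ∀ n, ∀ S : Finset (Set K), (S : Set (Set K)) ⊆ countablePartition K n →
      a (⋃₀ (S : Set (Set K))) = ∑ A ∈ S, a A) :
    Martingale (dens ρ a) (countableFiltration K) ρ := by
  refine martingale_of_setIntegral_eq_succ (fun n => stronglyMeasurable_dens ρ a n)
    (fun n => integrable_dens ρ a n) fun n s hs => ?_
  rw [setIntegral_dens ρ a h0 hadd n s hs, setIntegral_dens ρ a h0 hadd (n + 1) s
    ((countableFiltration K).mono (Nat.le_succ n) s hs)]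

theorem integral_abs_dens_le (ρ : Measure K) [IsFiniteMeasure ρ] (a : Set K → ℝ) (n : ℕ) :
    ∫ x, |dens ρ a n x| ∂ρ ≤ ∑ A ∈ (finite_countablePartition K n).toFinset, |a A| := by
  classical
  set P := (finite_countablePartition K n).toFinset with hP
  have hPs : (P : Set (Set K)) = countablePartition K n := by simp [hP]
  have h1 : ∫ x, |dens ρ a n x| ∂ρ = ∑ A ∈ P, ∫ x in A, |dens ρ a n x| ∂ρ := by
    rw [← setIntegral_sUnion ρ _ (integrable_dens ρ a n).abs n P hPs.le, hPs,
      sUnion_countablePartition, setIntegral_univ]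
  rw [h1]
  refine Finset.sum_le_sum fun A hA => ?_
  have hA' : A ∈ countablePartition K n := by rw [← hPs]; exact hA
  have hAm := measurableSet_countablePartition n hA'
  rw [setIntegral_congr_fun hAm (g := fun _ => |a A / ρ.real A|)
    (fun x hx => by simp only [dens_of_mem ρ a n hA' hx])]
  rw [setIntegral_const, smul_eq_mul, abs_div, abs_of_nonneg (measureReal_nonneg (μ := ρ) (s := A))]
  by_cases h : ρ.real A = 0
  · rw [h]; simp
  · rw [mul_div_cancel₀ _ h]

theorem eLpNorm_dens_le (ρ : Measure K) [IsFiniteMeasure ρ] (a : Set K → ℝ) (C : ℝ)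
    (hC : ∀ n, ∑ A ∈ (finite_countablePartition K n).toFinset, |a A| ≤ C) (n : ℕ) :
    eLpNorm (dens ρ a n) 1 ρ ≤ ENNReal.ofReal C := by
  rw [eLpNorm_one_eq_lintegral_enorm, ← ofReal_integral_norm_eq_lintegral_enorm
    (integrable_dens ρ a n)]
  exact ENNReal.ofReal_le_ofReal ((integral_abs_dens_le ρ a n).trans (hC n))

/-- The operator which associates with a functional the density of its absolutely continuous
part. -/
theorem exists_density_op (ρ : Measure K) [IsFiniteMeasure ρ] {Y : Type*} [NormedAddCommGroup Y]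
    [NormedSpace ℝ Y] (lam : Set K → Y)
    (h0 : ∀ n, ∀ A ∈ countablePartition K n, ρ A = 0 → lam A = 0)
    (hadd : ∀ n, ∀ S : Finset (Set K), (S : Set (Set K)) ⊆ countablePartition K n →
      lam (⋃₀ (S : Set (Set K))) = ∑ A ∈ S, lam A)
    (hnorm : ∀ n, ∀ ε : Set K → ℝ, (∀ A, |ε A| ≤ 1) →
      ‖∑ A ∈ (finite_countablePartition K n).toFinset, ε A • lam A‖ ≤ 1) :
    ∃ P : (Y →L[ℝ] ℝ) →L[ℝ] Lp ℝ 1 ρ, ∀ (φ : Y →L[ℝ] ℝ) (h : K → ℝ), Integrable h ρ →
      (∀ n, ∀ A ∈ countablePartition K n, φ (lam A) = ∫ x in A, h x ∂ρ) →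
      P φ =ᵐ[ρ] h := by
  classical
  let a : (Y →L[ℝ] ℝ) → Set K → ℝ := fun φ A => φ (lam A)
  have ha0 : ∀ φ, ∀ n, ∀ A ∈ countablePartition K n, ρ A = 0 → a φ A = 0 := by
    intro φ n A hA h
    simp only [a, h0 n A hA h, map_zero]
  have haadd : ∀ φ, ∀ n, ∀ S : Finset (Set K), (S : Set (Set K)) ⊆ countablePartition K n →
      a φ (⋃₀ (S : Set (Set K))) = ∑ A ∈ S, a φ A := by
    intro φ n S hS
    simp only [a, hadd n S hS, map_sum]
  have haC : ∀ φ, ∀ n, ∑ A ∈ (finite_countablePartition K n).toFinset, |a φ A| ≤ ‖φ‖ := by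
    intro φ n
    have h1 : ∑ A ∈ (finite_countablePartition K n).toFinset, |a φ A| =
        φ (∑ A ∈ (finite_countablePartition K n).toFinset, (SignType.sign (a φ A) : ℝ) • lam A) := by
      rw [map_sum]
      refine Finset.sum_congr rfl fun A _ => ?_
      rw [map_smul, smul_eq_mul]
      exact (sign_mul_self (a φ A)).symm
    rw [h1]
    calc _ ≤ ‖φ (∑ A ∈ (finite_countablePartition K n).toFinset,
            (SignType.sign (a φ A) : ℝ) • lam A)‖ := le_abs_self _
      _ ≤ ‖φ‖ * ‖∑ A ∈ (finite_countablePartition K n).toFinset,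
            (SignType.sign (a φ A) : ℝ) • lam A‖ := φ.le_opNorm _
      _ ≤ ‖φ‖ * 1 := by
          gcongr
          refine hnorm n _ fun A => ?_
          rcases lt_trichotomy (a φ A) 0 with h | h | h
          · simp [sign_neg h]
          · simp [h]
          · simp [sign_pos h]
      _ = ‖φ‖ := mul_one _
  let D : (Y →L[ℝ] ℝ) → K → ℝ := fun φ => (countableFiltration K).limitProcess (dens ρ (a φ)) ρ
  have hbd : ∀ φ n, eLpNorm (dens ρ (a φ) n) 1 ρ ≤ ((‖φ‖₊ : NNReal) : ENNReal) := by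
    intro φ n
    have := eLpNorm_dens_le ρ (a φ) ‖φ‖ (haC φ) n
    rwa [ofReal_norm] at this
  have hD1 : ∀ φ, ∀ᵐ x ∂ρ, Tendsto (fun n => dens ρ (a φ) n x) atTop (𝓝 (D φ x)) := fun φ =>
    (martingale_dens ρ (a φ) (ha0 φ) (haadd φ)).submartingale.ae_tendsto_limitProcess (hbd φ)
  have hD2 : ∀ φ, MemLp (D φ) 1 ρ := fun φ =>
    (martingale_dens ρ (a φ) (ha0 φ) (haadd φ)).submartingale.memLp_limitProcess (hbd φ)
  have hD3 : ∀ φ, eLpNorm (D φ) 1 ρ ≤ ENNReal.ofReal ‖φ‖ := by
    intro φ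
    refine (Lp.eLpNorm_lim_le_liminf_eLpNorm
      (fun n => (integrable_dens ρ (a φ) n).aestronglyMeasurable) _ (hD1 φ)).trans ?_
    refine Filter.liminf_le_of_le (by isBoundedDefault) fun b hb => ?_
    obtain ⟨n, hn⟩ := hb.exists
    refine hn.trans ?_
    rw [ofReal_norm]
    exact hbd φ n
  have hadd' : ∀ φ ψ, (hD2 (φ + ψ)).toLp (D (φ + ψ)) = (hD2 φ).toLp (D φ) + (hD2 ψ).toLp (D ψ) := by
    intro φ ψ
    rw [← MemLp.toLp_add]
    refine (MemLp.toLp_eq_toLp_iff _ _).mpr ?_
    filter_upwards [hD1 φ, hD1 ψ, hD1 (φ + ψ)] with x h1 h2 h3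
    refine tendsto_nhds_unique h3 ?_
    have : (fun n => dens ρ (a (φ + ψ)) n x) =
        fun n => dens ρ (a φ) n x + dens ρ (a ψ) n x := by
      funext n
      simp only [dens, a, _root_.add_apply]
      ring
    rw [this]
    exact h1.add h2
  have hsmul' : ∀ (c : ℝ) φ, (hD2 (c • φ)).toLp (D (c • φ)) = c • (hD2 φ).toLp (D φ) := by
    intro c φ
    rw [← MemLp.toLp_const_smul]
    refine (MemLp.toLp_eq_toLp_iff _ _).mpr ?_
    filter_upwards [hD1 φ, hD1 (c • φ)] with x h1 h3
    refine tendsto_nhds_unique h3 ?_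
    have : (fun n => dens ρ (a (c • φ)) n x) = fun n => c * dens ρ (a φ) n x := by
      funext n
      simp only [dens, a, _root_.smul_apply, smul_eq_mul]
      ring
    rw [this]
    exact h1.const_mul c
  let P0 : (Y →L[ℝ] ℝ) →ₗ[ℝ] Lp ℝ 1 ρ :=
    { toFun := fun φ => (hD2 φ).toLp (D φ)
      map_add' := hadd'
      map_smul' := hsmul' }
  have hP0 : ∀ φ, ‖P0 φ‖ ≤ 1 * ‖φ‖ := by
    intro φ
    rw [one_mul]
    change ‖(hD2 φ).toLp (D φ)‖ ≤ ‖φ‖
    rw [Lp.norm_toLp]
    exact ENNReal.toReal_le_of_le_ofReal (norm_nonneg _) (hD3 φ)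
  refine ⟨P0.mkContinuous 1 hP0, fun φ h hh hφ => ?_⟩
  have hcoe : (P0.mkContinuous 1 hP0) φ = (hD2 φ).toLp (D φ) := rfl
  rw [hcoe]
  -- the density process is the sequence of conditional expectations of `h`
  have hce : ∀ n, dens ρ (a φ) n =ᵐ[ρ] ρ[h | countableFiltration K n] := by
    intro n
    refine ae_eq_condExp_of_forall_setIntegral_eq ((countableFiltration K).le n) hh
      (fun s _ _ => (integrable_dens ρ (a φ) n).integrableOn) ?_
      (stronglyMeasurable_dens ρ (a φ) n).aestronglyMeasurable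
    intro s hs _
    obtain ⟨S, hS, rfl⟩ := (measurableSet_generateFrom_countablePartition_iff _ _).mp hs
    rw [setIntegral_sUnion ρ _ (integrable_dens ρ (a φ) n) n S hS, setIntegral_sUnion ρ h hh n S hS]
    refine Finset.sum_congr rfl fun A hA => ?_
    rw [setIntegral_dens_mem ρ (a φ) n (hS hA) (ha0 φ n A (hS hA))]
    exact hφ n A (hS hA)
  have hlim := tendsto_ae_condExp (ℱ := countableFiltration K) (μ := ρ) h
  rw [iSup_countableFiltration] at hlim
  have hself : ρ[h | mK] =ᵐ[ρ] h := condExp_of_aestronglyMeasurable' le_rfl hh.aestronglyMeasurable hh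
  have hall : ∀ᵐ x ∂ρ, ∀ n, dens ρ (a φ) n x = (ρ[h | countableFiltration K n]) x :=
    ae_all_iff.mpr hce
  filter_upwards [(hD2 φ).coeFn_toLp, hD1 φ, hlim, hself, hall] with x h1 h2 h3 h4 h5
  rw [h1]
  refine tendsto_nhds_unique h2 ?_
  rw [← h4]
  simp only [h5]
  exact h3

end PT
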