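import Mathlib
import Pool.Agent.Lib_helper59.PT.Mart

set_option autoImplicit false
set_option maxSynthPendingDepth 3

open Filter Topology MeasureTheory Function MeasurableSpace ProbabilityTheory

namespace PT

/-- integration over a measurable set, as a functional on `L¹`. -/
theorem exists_lam {S : Type*} [MeasurableSpace S] (m : Measure S) (B : Set S) :
    ∃ L : Lp ℝ 1 m →L[ℝ] ℝ, ∀ g : Lp ℝ 1 m, L g = ∫ s in B, g s ∂m := by
  have hint : ∀ g : Lp ℝ 1 m, Integrable g m := fun g => L1.integrable_coeFn g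
  let L0 : Lp ℝ 1 m →ₗ[ℝ] ℝ :=
    { toFun := fun g => ∫ s in B, g s ∂m
      map_add' := by
        intro g g'
        rw [← integral_add (hint g).integrableOn (hint g').integrableOn]
        refine integral_congr_ae (ae_restrict_of_ae ?_)
        filter_upwards [Lp.coeFn_add g g'] with s hs
        rw [hs]; rfl
      map_smul' := by
        intro c g
        rw [RingHom.id_apply, smul_eq_mul, ← integral_const_mul]
        refine integral_congr_ae (ae_restrict_of_ae ?_)
        filter_upwards [Lp.coeFn_smul c g] with s hs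
        rw [hs]; rfl }
  have hb : ∀ g, ‖L0 g‖ ≤ 1 * ‖g‖ := by
    intro g
    rw [one_mul, L1.norm_eq_integral_norm]
    calc ‖∫ s in B, g s ∂m‖ ≤ ∫ s in B, ‖g s‖ ∂m := norm_integral_le_integral_norm _
      _ ≤ ∫ s, ‖g s‖ ∂m := setIntegral_le_integral (hint g).norm
          (Eventually.of_forall fun s => norm_nonneg _)
  exact ⟨L0.mkContinuous 1 hb, fun g => rfl⟩

/-- a sequence in `L¹(m)` is represented in `L¹(ρ)`, `ρ` a finite measure on `ℕ → ℝ`, by an
operator defined on the dual of a separable subspace of `L¹(m)*`. -/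
theorem l1_model {S : Type*} [MeasurableSpace S] (m : Measure S) (g : ℕ → Lp ℝ 1 m) :
    ∃ (ρ : Measure (ℕ → ℝ)) (_ : IsFiniteMeasure ρ) (Y : Submodule ℝ (Lp ℝ 1 m →L[ℝ] ℝ))
      (_ : TopologicalSpace.SeparableSpace Y) (P : (Y →L[ℝ] ℝ) →L[ℝ] Lp ℝ 1 ρ),
      ∀ φ : ℕ → (Y →L[ℝ] ℝ), (∀ k (y : Y), φ k y = (y : Lp ℝ 1 m →L[ℝ] ℝ) (g k)) →
        ∀ k l, ‖P (φ k) - P (φ l)‖ = ‖g k - g l‖ := by
  classical
  have hgint : ∀ k, Integrable (g k) m := fun k => L1.integrable_coeFn (g k)
  have hgm : ∀ k, Measurable (g k) := fun k => (Lp.stronglyMeasurable (g k)).measurable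
  -- the weight
  obtain ⟨δ, hδpos, hδsum⟩ := ENNReal.exists_pos_sum_of_countable' (ε := 1) one_ne_zero ℕ
  let c : ℕ → ENNReal := fun k => δ k / (1 + ‖g k‖ₑ)
  have hgk : ∀ k, ‖g k‖ₑ ≠ ⊤ := fun k => enorm_ne_top
  have hc0 : ∀ k, c k ≠ 0 := by
    intro k
    simp only [c, ne_eq, ENNReal.div_eq_zero_iff, not_or]
    exact ⟨(hδpos k).ne', ENNReal.add_ne_top.mpr ⟨ENNReal.one_ne_top, hgk k⟩⟩
  have hck : ∀ k, c k * ‖g k‖ₑ ≤ δ k := by
    intro k
    simp only [c]
    rw [ENNReal.div_eq_inv_mul, mul_comm _ (δ k), mul_assoc]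
    have h1 : (1 + ‖g k‖ₑ)⁻¹ * ‖g k‖ₑ ≤ 1 := by
      calc (1 + ‖g k‖ₑ)⁻¹ * ‖g k‖ₑ ≤ (1 + ‖g k‖ₑ)⁻¹ * (1 + ‖g k‖ₑ) := by
            gcongr
            exact le_add_self
        _ ≤ 1 := ENNReal.inv_mul_le_one _
    calc δ k * ((1 + ‖g k‖ₑ)⁻¹ * ‖g k‖ₑ) ≤ δ k * 1 := by gcongr
      _ = δ k := mul_one _
  let w : S → ENNReal := fun s => ∑' k, c k * ‖g k s‖ₑ
  have hwm : Measurable w := by
    refine Measurable.ennreal_tsum fun k => ?_
    exact ((hgm k).enorm).const_mul _
  have hwint : ∫⁻ s, w s ∂m ≤ 1 := by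
    rw [lintegral_tsum (fun k => (((hgm k).enorm).const_mul _).aemeasurable)]
    calc ∑' k, ∫⁻ s, c k * ‖g k s‖ₑ ∂m = ∑' k, c k * ‖g k‖ₑ := by
          refine tsum_congr fun k => ?_
          rw [lintegral_const_mul _ (hgm k).enorm, Lp.enorm_def, eLpNorm_one_eq_lintegral_enorm]
      _ ≤ ∑' k, δ k := ENNReal.tsum_le_tsum hck
      _ ≤ 1 := hδsum.le
  have hwtop : ∀ᵐ s ∂m, w s < ⊤ :=
    ae_lt_top hwm (ne_top_of_le_ne_top ENNReal.one_ne_top hwint)
  have hwg : ∀ k s, w s = 0 → g k s = 0 := by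
    intro k s hs
    have h1 : c k * ‖g k s‖ₑ = 0 := by
      have := ENNReal.tsum_eq_zero.mp hs k
      exact this
    rcases mul_eq_zero.mp h1 with h | h
    · exact absurd h (hc0 k)
    · simpa using h
  -- the image measure
  let χ : S → (ℕ → ℝ) := fun s k => g k s / (w s).toReal
  have hχ : Measurable χ := by
    refine measurable_pi_lambda _ fun k => ?_
    exact (hgm k).div hwm.ennreal_toReal
  let m' : Measure S := m.withDensity w
  have hm' : IsFiniteMeasure m' := by
    refine ⟨?_⟩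
    rw [withDensity_apply _ MeasurableSet.univ, setLIntegral_univ]
    exact lt_of_le_of_lt hwint ENNReal.one_lt_top
  let ρ : Measure (ℕ → ℝ) := m'.map χ
  have hρ : IsFiniteMeasure ρ := by
    show IsFiniteMeasure (m'.map χ)
    infer_instance
  let B : Set (ℕ → ℝ) → Set S := fun A => {s | w s ≠ 0} ∩ χ ⁻¹' A
  have hw0 : MeasurableSet {s | w s ≠ 0} := (hwm (measurableSet_singleton 0)).compl
  have hBm : ∀ A, MeasurableSet A → MeasurableSet (B A) := fun A hA => hw0.inter (hχ hA)
  choose lam0 hlam0 using fun A : Set (ℕ → ℝ) => exists_lam m (B A)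
  let Y : Submodule ℝ (Lp ℝ 1 m →L[ℝ] ℝ) :=
    Submodule.span ℝ (lam0 '' (⋃ n, countablePartition (ℕ → ℝ) n))
  have hYsep : TopologicalSpace.SeparableSpace Y := by
    have h1 : (lam0 '' (⋃ n, countablePartition (ℕ → ℝ) n)).Countable :=
      (Set.countable_iUnion fun n => (finite_countablePartition (ℕ → ℝ) n).countable).image _
    exact (h1.isSeparable.span (R := ℝ)).separableSpace
  have hmemY : ∀ n, ∀ A ∈ countablePartition (ℕ → ℝ) n, lam0 A ∈ Y := fun n A hA =>
    Submodule.subset_span ⟨A, Set.mem_iUnion.mpr ⟨n, hA⟩, rfl⟩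
  let lam : Set (ℕ → ℝ) → Y := fun A => if h : lam0 A ∈ Y then ⟨lam0 A, h⟩ else 0
  have hlam : ∀ A, lam0 A ∈ Y → ((lam A : Y) : Lp ℝ 1 m →L[ℝ] ℝ) = lam0 A := by
    intro A h
    simp only [lam, dif_pos h]
  -- additivity of lam0
  have hadd0 : ∀ (f : Lp ℝ 1 m) n, ∀ T : Finset (Set (ℕ → ℝ)),
      (T : Set (Set (ℕ → ℝ))) ⊆ countablePartition (ℕ → ℝ) n → ∀ G : S → ℝ, Integrable G m →
      ∫ s in B (⋃₀ (T : Set (Set (ℕ → ℝ)))), G s ∂m = ∑ A ∈ T, ∫ s in B A, G s ∂m := by
    intro f n T hT G hG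
    have h1 : B (⋃₀ (T : Set (Set (ℕ → ℝ)))) = ⋃ A ∈ T, B A := by
      ext s
      simp only [B, Set.mem_inter_iff, Set.mem_preimage, Set.mem_sUnion, Set.mem_iUnion,
        SetLike.mem_coe, exists_prop]
      constructor
      · rintro ⟨h2, A, hA, hs⟩
        exact ⟨A, hA, h2, hs⟩
      · rintro ⟨A, hA, h2, hs⟩
        exact ⟨h2, A, hA, hs⟩
    rw [h1]
    refine integral_biUnion_finset T (fun A hA => hBm A (measurableSet_countablePartition n (hT hA)))
      ?_ (fun A _ => hG.integrableOn)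
    intro A hA A' hA' hne
    have h2 := disjoint_countablePartition (hT hA) (hT hA') hne
    simp only [Function.onFun, B]
    exact (h2.preimage χ).mono Set.inter_subset_right Set.inter_subset_right
  obtain ⟨P, hP⟩ := exists_density_op (K := ℕ → ℝ) ρ lam (by
      intro n A hA h
      have hAm := measurableSet_countablePartition n hA
      have h1 : m (B A) = 0 := by
        have h2 : m' (χ ⁻¹' A) = 0 := by
          rw [← Measure.map_apply hχ hAm]
          exact h
        exact (withDensity_apply_eq_zero hwm).mp h2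
      have h2 : lam0 A = 0 := by
        ext f
        rw [hlam0]
        simp [Measure.restrict_eq_zero.mpr h1]
      apply Subtype.ext
      rw [hlam A (hmemY n A hA), h2]
      rfl) (by
      intro n T hT
      have h1 : lam0 (⋃₀ (T : Set (Set (ℕ → ℝ)))) = ∑ A ∈ T, lam0 A := by
        ext f
        rw [hlam0, hadd0 f n T hT f (L1.integrable_coeFn f)]
        simp only [FunLike.coe_sum, Finset.sum_apply, hlam0]
      have h2 : lam0 (⋃₀ (T : Set (Set (ℕ → ℝ)))) ∈ Y := by
        rw [h1]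
        exact Submodule.sum_mem _ fun A hA => hmemY n A (hT hA)
      apply Subtype.ext
      rw [hlam _ h2, h1]
      push_cast
      exact Finset.sum_congr rfl fun A hA => (hlam A (hmemY n A (hT hA))).symm) (by
      intro n ε hε
      set PP := (finite_countablePartition (ℕ → ℝ) n).toFinset with hPP
      have hPPs : (PP : Set (Set (ℕ → ℝ))) = countablePartition (ℕ → ℝ) n := by simp [hPP]
      have h1 : ((∑ A ∈ PP, ε A • lam A : Y) : Lp ℝ 1 m →L[ℝ] ℝ) = ∑ A ∈ PP, ε A • lam0 A := by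
        push_cast
        refine Finset.sum_congr rfl fun A hA => ?_
        rw [hlam A (hmemY n A (by rw [← hPPs]; exact hA))]
      rw [Submodule.coe_norm, h1]
      refine ContinuousLinearMap.opNorm_le_bound _ zero_le_one fun f => ?_
      have hfi := L1.integrable_coeFn f
      rw [one_mul, L1.norm_eq_integral_norm]
      simp only [FunLike.coe_sum, Finset.sum_apply, FunLike.coe_smul, Pi.smul_apply, hlam0,
        smul_eq_mul]
      calc ‖∑ A ∈ PP, ε A * ∫ s in B A, f s ∂m‖ ≤ ∑ A ∈ PP, ‖ε A * ∫ s in B A, f s ∂m‖ :=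
            norm_sum_le _ _
        _ ≤ ∑ A ∈ PP, ∫ s in B A, ‖f s‖ ∂m := by
            refine Finset.sum_le_sum fun A _ => ?_
            rw [norm_mul]
            calc ‖ε A‖ * ‖∫ s in B A, f s ∂m‖ ≤ 1 * ‖∫ s in B A, f s ∂m‖ := by
                  gcongr
                  exact hε A
              _ ≤ 1 * ∫ s in B A, ‖f s‖ ∂m := by
                  gcongr
                  exact norm_integral_le_integral_norm _
              _ = _ := one_mul _
        _ = ∫ s in B (⋃₀ (PP : Set (Set (ℕ → ℝ)))), ‖f s‖ ∂m :=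
            (hadd0 f n PP hPPs.le _ hfi.norm).symm
        _ ≤ ∫ s, ‖f s‖ ∂m := setIntegral_le_integral hfi.norm
            (Eventually.of_forall fun s => norm_nonneg _))
  refine ⟨ρ, hρ, Y, hYsep, P, fun φ hφ k l => ?_⟩
  -- integrals against ρ
  have htr : ∀ (q : (ℕ → ℝ) → ℝ), Measurable q → ∀ A, MeasurableSet A →
      ∫ x in A, q x ∂ρ = ∫ s in χ ⁻¹' A, (w s).toReal * q (χ s) ∂m := by
    intro q hq A hA
    have e1 : ∫ x in A, q x ∂ρ = ∫ s in χ ⁻¹' A, q (χ s) ∂m' := by
      refine setIntegral_map hA hq.aestronglyMeasurable hχ.aemeasurable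
    rw [e1, setIntegral_withDensity_eq_setIntegral_toReal_smul hwm (ae_restrict_of_ae hwtop) _
      (hχ hA)]
    rfl
  have hcan : ∀ k, ∀ᵐ s ∂m, (w s).toReal * (χ s k) = g k s := by
    intro k
    filter_upwards [hwtop] with s hs
    by_cases h0 : w s = 0
    · rw [hwg k s h0, h0]; simp
    · have h1 : (w s).toReal ≠ 0 := ENNReal.toReal_ne_zero.mpr ⟨h0, hs.ne⟩
      simp only [χ]
      field_simp
  have hpi : ∀ k, Integrable (fun x : ℕ → ℝ => x k) ρ := by
    intro k
    have h1 : Integrable (fun s => χ s k) m' := by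
      rw [integrable_withDensity_iff_integrable_smul' hwm hwtop]
      refine (hgint k).congr ?_
      filter_upwards [hcan k] with s hs
      exact hs.symm
    exact (integrable_map_measure (measurable_pi_apply k).aestronglyMeasurable hχ.aemeasurable).mpr h1
  have hPk : ∀ k, P (φ k) =ᵐ[ρ] fun x => x k := by
    intro k
    refine hP (φ k) (fun x => x k) (hpi k) fun n A hA => ?_
    have hAm := measurableSet_countablePartition n hA
    rw [hφ, hlam A (hmemY n A hA), hlam0, htr _ (measurable_pi_apply k) A hAm]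
    have e1 : ∫ s in χ ⁻¹' A, (w s).toReal * (χ s k) ∂m = ∫ s in χ ⁻¹' A, g k s ∂m :=
      integral_congr_ae (ae_restrict_of_ae (hcan k))
    rw [e1]
    -- the integrand vanishes where `w` does
    refine (setIntegral_eq_of_subset_of_forall_sdiff_eq_zero (hχ hAm) Set.inter_subset_right ?_).symm
    intro s hs
    refine hwg k s ?_
    by_contra h
    exact hs.2 ⟨h, hs.1⟩
  rw [L1.norm_eq_integral_norm, L1.norm_eq_integral_norm]
  have e1 : ∫ x, ‖(P (φ k) - P (φ l)) x‖ ∂ρ = ∫ x, |x k - x l| ∂ρ := by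
    refine integral_congr_ae ?_
    filter_upwards [Lp.coeFn_sub (P (φ k)) (P (φ l)), hPk k, hPk l] with x h1 h2 h3
    rw [h1, Pi.sub_apply, h2, h3]
    rfl
  have e2 : ∫ x, |x k - x l| ∂ρ = ∫ s, (w s).toReal * |χ s k - χ s l| ∂m := by
    have := htr (fun x => |x k - x l|) (by fun_prop) Set.univ MeasurableSet.univ
    simpa using this
  rw [e1, e2]
  refine integral_congr_ae ?_
  filter_upwards [Lp.coeFn_sub (g k) (g l), hcan k, hcan l] with s h1 h2 h3
  rw [h1, Pi.sub_apply, ← h2, ← h3, ← mul_sub, Real.norm_eq_abs, abs_mul,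
    abs_of_nonneg (ENNReal.toReal_nonneg (a := w s))]

end PT
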